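import Pool.Agent.L5helper70.OD.Tree

/-!
# From intersections of quadrics of odd rank to hypersurfaces
-/

set_option autoImplicit false
set_option linter.unusedVariables false
set_option maxHeartbeats 1000000

open CategoryTheory AlgebraicGeometry MvPolynomial Matrix Pool.Agent.Y116.UV Pool.Agent.Z125.UN
  Pool.Agent.L5helper70.QF

namespace Pool.Agent.L5helper70.OD

section mat

variable {k : Type} [Field k] {m d : ℕ}

/-- the index set -/
abbrev Ix (m d : ℕ) : Type := Mo m d ⊕ Nz m d

/-- the bilinear form `∑ c_μ w_μ w'_0 + ∑ t_i w'_i` -/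
noncomputable def M0 (f : MvPolynomial (Fin m) k) : Matrix (Ix m d) (Ix m d) k := fun a b =>
  Sum.elim (fun μ => Sum.elim (fun ν => if ν = 0 then cf f μ else 0) (fun _ => 0) b)
    (fun i => Sum.elim (fun ν => if i.1 = ν then 1 else 0) (fun _ => 0) b) a

/-- the bilinear form `-∑ t_i w'_i` over the edges in a direction -/
noncomputable def M1 (k : Type) [Field k] (j : Fin m) : Matrix (Ix m d) (Ix m d) k := fun a b =>
  Sum.elim (fun _ => 0) (fun i => Sum.elim (fun ν => if (ed i).1.1 = ν then
    (if (ed i).1.2 = j then -1 else 0) else 0) (fun _ => 0) b) a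

/-- all the bilinear forms -/
noncomputable def MM (f : MvPolynomial (Fin m) k) (l : Fin (m + 1)) :
    Matrix (Ix m d) (Ix m d) k :=
  (Fin.cons (M0 f) (fun j => M1 k j) : Fin (m + 1) → Matrix (Ix m d) (Ix m d) k) l

/-- the symmetric matrices -/
noncomputable def SS (f : MvPolynomial (Fin m) k) (l : Fin (m + 1)) :
    Matrix (Ix m d) (Ix m d) k := (2⁻¹ : k) • (MM f l + (MM f l)ᵀ)

lemma ss_symm (f : MvPolynomial (Fin m) k) (l : Fin (m + 1)) : (SS (d := d) f l).IsSymm := by
  rw [Matrix.IsSymm, SS, transpose_smul, transpose_add, transpose_transpose, add_comm]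

/-- the value of a bilinear form -/
def bv {E ι : Type} [CommRing E] [Algebra k E] [Fintype ι] (M : Matrix ι ι k) (v w : ι → E) : E :=
  v ⬝ᵥ (M.map (algebraMap k E) *ᵥ w)

lemma bv_t {E ι : Type} [CommRing E] [Algebra k E] [Fintype ι] (M : Matrix ι ι k) (v w : ι → E) :
    bv Mᵀ v w = bv M w v := by
  rw [bv, bv, dotProduct_mulVec, transpose_map, vecMul_transpose, dotProduct_comm]

lemma bv_ss {E : Type} [CommRing E] [Algebra k E] (f : MvPolynomial (Fin m) k) (l : Fin (m + 1))
    (v w : Ix m d → E) : bv (SS f l) v w = algebraMap k E 2⁻¹ * (bv (MM f l) v w +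
      bv (MM f l) w v) := by
  rw [← bv_t (MM f l) v w]
  simp only [bv, SS, dotProduct, mulVec, map_apply, Matrix.smul_apply, Matrix.add_apply,
    smul_eq_mul, map_mul, map_add]
  rw [← Finset.sum_add_distrib, Finset.mul_sum]
  refine Finset.sum_congr rfl fun a _ => ?_
  rw [← mul_add, ← Finset.sum_add_distrib, Finset.mul_sum, Finset.mul_sum, Finset.mul_sum]
  refine Finset.sum_congr rfl fun b _ => ?_
  ring

lemma bv_M0 {E : Type} [CommRing E] [Algebra k E] (f : MvPolynomial (Fin m) k)
    (v w : Ix m d → E) : bv (M0 f) v w =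
      (∑ μ : Mo m d, algebraMap k E (cf f μ) * v (Sum.inl μ)) * w (Sum.inl 0) +
      ∑ i : Nz m d, v (Sum.inr i) * w (Sum.inl i.1) := by
  simp only [bv, dotProduct, mulVec, map_apply, Fintype.sum_sum_type, M0, Sum.elim_inl,
    Sum.elim_inr, map_zero, zero_mul, Finset.sum_const_zero, add_zero, apply_ite (algebraMap k E),
    ite_mul, Finset.sum_ite_eq, Finset.sum_ite_eq', Finset.mem_univ, if_true, map_one, one_mul,
    Finset.sum_mul]
  congr 1
  refine Finset.sum_congr rfl fun a _ => ?_
  ring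

lemma bv_M1 {E : Type} [CommRing E] [Algebra k E] (j : Fin m)
    (v w : Ix m d → E) : bv (M1 k j) v w =
      -∑ i : Nz m d, if (ed i).1.2 = j then v (Sum.inr i) * w (Sum.inl (ed i).1.1) else 0 := by
  simp only [bv, dotProduct, mulVec, map_apply, Fintype.sum_sum_type, M1, Sum.elim_inl,
    Sum.elim_inr, map_zero, zero_mul, mul_zero, Finset.sum_const_zero, add_zero, zero_add,
    apply_ite (algebraMap k E), ite_mul, Finset.sum_ite_eq, Finset.mem_univ, if_true, map_one,
    map_neg, one_mul]
  rw [← Finset.sum_neg_distrib]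
  refine Finset.sum_congr rfl fun a _ => ?_
  split_ifs
  · ring
  · ring

lemma bv_sum {E : Type} [CommRing E] [Algebra k E] (f : MvPolynomial (Fin m) k)
    (y : Fin (m + 1) → E) (v w : Ix m d → E) : ∑ l, y l * bv (MM f l) v w =
      y 0 * ((∑ μ : Mo m d, algebraMap k E (cf f μ) * v (Sum.inl μ)) * w (Sum.inl 0)) +
      ∑ i : Nz m d, v (Sum.inr i) * (y 0 * w (Sum.inl i.1) -
        y (ed i).1.2.succ * w (Sum.inl (ed i).1.1)) := by
  rw [Fin.sum_univ_succ]
  have e0 : MM (d := d) f 0 = M0 f := rfl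
  have e1 : ∀ j : Fin m, MM (d := d) f j.succ = M1 k j := fun _ => rfl
  simp only [e0, e1, bv_M0, bv_M1]
  have h3 : ∑ j : Fin m, y j.succ * -(∑ i : Nz m d, if (ed i).1.2 = j then v (Sum.inr i) *
      w (Sum.inl (ed i).1.1) else 0) =
      -∑ i : Nz m d, y (ed i).1.2.succ * (v (Sum.inr i) * w (Sum.inl (ed i).1.1)) := by
    simp only [mul_neg, Finset.sum_neg_distrib, Finset.mul_sum]
    rw [Finset.sum_comm]
    congr 1
    apply Finset.sum_congr rfl
    intro i _
    simp only [mul_ite, mul_zero]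
    rw [Finset.sum_ite_eq Finset.univ (ed i).1.2, if_pos (Finset.mem_univ _)]
  rw [h3, mul_add, Finset.mul_sum, ← sub_eq_add_neg, add_sub_assoc, ← Finset.sum_sub_distrib]
  congr 1
  apply Finset.sum_congr rfl
  intro i _
  ring

/-- the matrix of the pencil is regular -/
lemma ker_pencil {K : Type} [Field K] [Algebra k K] (h2 : (2 : K) ≠ 0)
    (f : MvPolynomial (Fin m) k) (hd : f.totalDegree ≤ d) (z : Fin m → K)
    (hz : aeval z f ≠ 0) (v : Ix m d → K)
    (h : ∀ w : Ix m d → K, ∑ l, (Fin.cons 1 z : Fin (m + 1) → K) l *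
      (bv (MM f l) v w + bv (MM f l) w v) = 0) :
    v = 0 := by
  classical
  have h1 : ∀ w : Ix m d → K,
      ((∑ μ : Mo m d, algebraMap k K (cf f μ) * v (Sum.inl μ)) * w (Sum.inl 0) +
      ∑ i : Nz m d, v (Sum.inr i) * (w (Sum.inl i.1) -
        z (ed i).1.2 * w (Sum.inl (ed i).1.1))) +
      ((∑ μ : Mo m d, algebraMap k K (cf f μ) * w (Sum.inl μ)) * v (Sum.inl 0) +
      ∑ i : Nz m d, w (Sum.inr i) * (v (Sum.inl i.1) -
        z (ed i).1.2 * v (Sum.inl (ed i).1.1))) = 0 := by
    intro w
    have h3 := h w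
    simp only [mul_add, Finset.sum_add_distrib] at h3
    rw [bv_sum, bv_sum] at h3
    simpa only [Fin.cons_zero, Fin.cons_succ, one_mul] using h3
  -- the equations of the tree
  have h3 : ∀ i : Nz m d, v (Sum.inl i.1) = z (ed i).1.2 * v (Sum.inl (ed i).1.1) := by
    intro i
    have h4 := h1 (Sum.elim (fun _ => 0) (Pi.single i 1))
    simp only [Sum.elim_inl, Sum.elim_inr, mul_zero, sub_zero, Finset.sum_const_zero, zero_mul,
      zero_add, add_zero, Pi.single_apply, ite_mul, one_mul, Finset.sum_ite_eq',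
      Finset.mem_univ, if_true] at h4
    exact sub_eq_zero.mp h4
  have h4 := tree_sol z (fun μ => v (Sum.inl μ)) h3
  have h5 : v (Sum.inl 0) = 0 := by
    have h6 := h1 (Sum.elim (fun μ => mono z μ) fun _ => 0)
    have h7 : mono z (0 : Mo m d) = 1 := by simp [mono]
    simp only [Sum.elim_inl, Sum.elim_inr, mono_ed, sub_self, mul_zero, zero_mul,
      Finset.sum_const_zero, add_zero, h7, mul_one] at h6
    have h8 : ∑ μ : Mo m d, algebraMap k K (cf f μ) * v (Sum.inl μ) =
        aeval z f * v (Sum.inl 0) := by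
      rw [aeval_cf f hd z, Finset.sum_mul]
      refine Finset.sum_congr rfl fun μ _ => ?_
      have h9 : v (Sum.inl μ) = mono z μ * v (Sum.inl 0) := h4 μ
      rw [h9]
      ring
    rw [h8, ← aeval_cf f hd z, ← two_mul] at h6
    rcases mul_eq_zero.mp h6 with h9 | h9
    · exact absurd h9 h2
    · rcases mul_eq_zero.mp h9 with h9 | h9
      · exact absurd h9 hz
      · exact h9
  have h6 : ∀ μ, v (Sum.inl μ) = 0 := by
    intro μ
    have h9 : v (Sum.inl μ) = mono z μ * v (Sum.inl 0) := h4 μ
    rw [h9, h5, mul_zero]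
  -- the other variables
  have h7 : ∀ i : Nz m d, v (Sum.inr i) = ∑ j : Nz m d, if (ed j).1.1 = i.1 then
      v (Sum.inr j) * z (ed j).1.2 else 0 := by
    intro i
    have h8 := h1 (Sum.elim (Pi.single i.1 1) fun _ => 0)
    simp only [Sum.elim_inl, Sum.elim_inr, h6, mul_zero, Finset.sum_const_zero,
      sub_self, add_zero, Pi.single_apply, mul_ite, mul_one, mul_sub, zero_mul,
      Finset.sum_sub_distrib, ite_self, zero_add] at h8
    have h9 : ∀ j : Nz m d, (j.1 = i.1) = (j = i) := fun j => by rw [Subtype.ext_iff]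
    simp only [h9, Finset.sum_ite_eq', Finset.mem_univ, if_true] at h8
    exact sub_eq_zero.mp h8
  have h8 : ∀ (s : ℕ) (i : Nz m d), (Finset.univ : Finset (Mo m d)).sup dg < dg i.1 + s →
      v (Sum.inr i) = 0 := by
    intro s
    induction s with
    | zero =>
      intro i hi
      have h9 : dg i.1 ≤ (Finset.univ : Finset (Mo m d)).sup dg :=
        Finset.le_sup (Finset.mem_univ _)
      omega
    | succ s ih =>
      intro i hi
      rw [h7 i]
      refine Finset.sum_eq_zero fun j _ => ?_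
      split_ifs with h9
      · have h10 := dg_ed j
        rw [h9] at h10
        rw [ih j (by omega), zero_mul]
      · rfl
  funext a
  rcases a with μ | i
  · exact h6 μ
  · exact h8 ((Finset.univ : Finset (Mo m d)).sup dg + 1) i (by omega)

end mat

end Pool.Agent.L5helper70.OD
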