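import Pool.Agent.L5helper70.OD.Back

/-!
# From intersections of quadrics of odd rank to hypersurfaces: conclusion
-/

set_option autoImplicit false
set_option linter.unusedVariables false
set_option maxHeartbeats 1000000

open CategoryTheory AlgebraicGeometry MvPolynomial Matrix Pool.Agent.Y116.UV Pool.Agent.Z125.UN
  Pool.Agent.L5helper70.QF

namespace Pool.Agent.L5helper70.OD

section rank

variable {k : Type} [Field k] {m d : ℕ}

lemma rank_pencil (h2 : (2 : k) ≠ 0) (f : MvPolynomial (Fin m) k) (hf : f ≠ 0)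
    (hd : f.totalDegree ≤ d) {N : ℕ} (g : Fin N ≃ Ix m d) :
    ((pmat fun l => (SS f l).submatrix g g).map
      (algebraMap _ (FractionRing (MvPolynomial (Fin m) k)))).rank = N := by
  classical
  let K := FractionRing (MvPolynomial (Fin m) k)
  let z : Fin m → K := fun j => algebraMap (MvPolynomial (Fin m) k) K (X j)
  let A : Matrix (Ix m d) (Ix m d) K :=
    ∑ l, (Fin.cons 1 z : Fin (m + 1) → K) l • (SS f l).map (algebraMap k K)
  have hC : ∀ a : k, algebraMap (MvPolynomial (Fin m) k) K (C a) = algebraMap k K a := by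
    intro a
    rw [IsScalarTower.algebraMap_apply k (MvPolynomial (Fin m) k) K]
    rfl
  have hA : ((pmat fun l => (SS f l).submatrix g g).map (algebraMap _ K)) =
      A.submatrix g g := by
    ext i j
    simp only [A, pmat, Fin.sum_univ_succ, Fin.cons_zero, Fin.cons_succ, one_smul, map_apply,
      Matrix.add_apply, Matrix.sum_apply, Matrix.smul_apply, submatrix_apply, map_add, map_sum,
      smul_eq_mul, map_mul, hC, z]
  change ((pmat fun l => (SS f l).submatrix g g).map (algebraMap _ K)).rank = N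
  have hU : IsUnit A := by
    rw [← mulVec_injective_iff_isUnit]
    refine (injective_iff_map_eq_zero A.mulVecLin).mpr fun v hv => ?_
    have hv' : A *ᵥ v = 0 := hv
    have h2K : (2 : K) ≠ 0 := by
      intro h
      apply h2
      have h3 : algebraMap k K 2 = 0 := by
        rw [map_ofNat]
        exact h
      exact (map_eq_zero_iff (algebraMap k K) (algebraMap k K).injective).mp h3
    refine ker_pencil h2K f hd z ?_ v fun w => ?_
    · have h3 : aeval z f = algebraMap (MvPolynomial (Fin m) k) K f := by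
        have h4 := aeval_algebraMap_apply (R := k) K (X : Fin m → MvPolynomial (Fin m) k) f
        rw [aeval_X_left_apply] at h4
        exact h4
      rw [h3]
      exact (map_ne_zero_iff _ (IsFractionRing.injective (MvPolynomial (Fin m) k) K)).mpr hf
    · have h3 : w ⬝ᵥ (A *ᵥ v) = 0 := by rw [hv', dotProduct_zero]
      have h4 : w ⬝ᵥ (A *ᵥ v) = ∑ l, (Fin.cons 1 z : Fin (m + 1) → K) l * bv (SS f l) w v := by
        rw [sum_mulVec, dotProduct_sum]
        refine Finset.sum_congr rfl fun l _ => ?_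
        rw [smul_mulVec, dotProduct_smul, smul_eq_mul]
        rfl
      rw [h4] at h3
      have h5 : ∑ l, (Fin.cons 1 z : Fin (m + 1) → K) l * bv (SS f l) w v =
          algebraMap k K 2⁻¹ * ∑ l, (Fin.cons 1 z : Fin (m + 1) → K) l *
            (bv (MM f l) v w + bv (MM f l) w v) := by
        rw [Finset.mul_sum]
        refine Finset.sum_congr rfl fun l _ => ?_
        rw [bv_ss]
        ring
      rw [h5] at h3
      rcases mul_eq_zero.mp h3 with h6 | h6
      · rw [map_eq_zero_iff _ (algebraMap k K).injective] at h6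
        exact absurd h6 (inv_ne_zero h2)
      · exact h6
  rw [hA, rank_submatrix, rank_of_isUnit _ hU, Fintype.card_congr g.symm, Fintype.card_fin]

lemma odd_card (m d : ℕ) : Odd (Fintype.card (Ix m d)) := by
  classical
  have h1 : Fintype.card (Nz m d) = Fintype.card (Mo m d) - 1 := Set.card_ne_eq (0 : Mo m d)
  rw [Fintype.card_sum, h1]
  have h2 : 0 < Fintype.card (Mo m d) := Fintype.card_pos
  refine ⟨Fintype.card (Mo m d) - 1, by omega⟩

lemma aeval_sub {E ι κ : Type} [CommRing E] [Algebra k E] [Fintype ι] [Fintype κ]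
    (S : Matrix ι ι k) (g : κ ≃ ι) (w : ι → E) :
    aeval (fun s => w (g s)) (qf (S.submatrix g g)) = bv S w w := by
  rw [aeval_qf, bv]
  simp only [dotProduct, mulVec, map_apply, submatrix_apply]
  rw [← g.sum_comp]
  refine Finset.sum_congr rfl fun a _ => ?_
  rw [← g.sum_comp (fun x => algebraMap k E (S (g a) x) * w x)]

end rank

section

variable {k : Type} [Field k] {P : Sch k → Prop} {sep : Prop} (hP : Bnd sep P)

include hP

/-- the form `∑ c_μ w_μ w_0` -/
noncomputable def hf {m d : ℕ} (f : MvPolynomial (Fin m) k) : MvPolynomial (Mo m d) k :=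
  ∑ μ : Mo m d, C (cf f μ) * (X μ * X 0)

omit hP in
lemma aeval_hf {m d : ℕ} (f : MvPolynomial (Fin m) k) {C : Type} [CommRing C] [Algebra k C]
    (v : Mo m d → C) : aeval v (hf f) =
      ∑ μ : Mo m d, algebraMap k C (cf f μ) * (v μ * v 0) := by
  simp only [hf, map_sum, map_mul, aeval_X, algHom_C]

/-- the linearized equations -/
lemma pr_sys' (h2 : (2 : k) ≠ 0) {m : ℕ}
    (hJ : ∀ (N : ℕ) (S : Fin (m + 1) → Matrix (Fin N) (Fin N) k), (∀ j, (S j).IsSymm) →
      Odd ((pmat S).map (algebraMap _ (FractionRing (MvPolynomial (Fin m) k)))).rank →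
      Pr P (fun C _ _ v => ∑ l, aeval (fun s => v (Sum.inl s)) (qf (S l)) * v (Sum.inr l) = 1 :
        Cond k (Fin N ⊕ Fin (m + 1)))) {d : ℕ} (f : MvPolynomial (Fin m) k) (hf0 : f ≠ 0)
    (hd : f.totalDegree ≤ d) :
    Pr P (fun C _ _ v => aeval v (X (Sum.inr 0) * rename Sum.inl (hf f) :
        MvPolynomial (Mo m d ⊕ Fin (m + 1)) k) = 1 ∧ ∀ i, aeval v (eqv k i) = 0 :
      Cond k (Mo m d ⊕ Fin (m + 1))) := by
  classical
  let g : Fin (Fintype.card (Ix m d)) ≃ Ix m d := (Fintype.equivFin _).symm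
  have h1 := hJ _ (fun l => (SS (d := d) f l).submatrix g g) (fun l => (ss_symm f l).submatrix g)
    (by
      rw [rank_pencil h2 f hf0 hd]
      exact odd_card m d)
  let g' : Ix m d ⊕ Fin (m + 1) ≃ (Mo m d ⊕ Fin (m + 1)) ⊕ Nz m d :=
    { toFun := Sum.elim (Sum.elim (fun s => Sum.inl (Sum.inl s)) fun i => Sum.inr i)
        fun j => Sum.inl (Sum.inr j)
      invFun := Sum.elim (Sum.elim (fun s => Sum.inl (Sum.inl s)) fun j => Sum.inr j)
        fun i => Sum.inl (Sum.inr i)
      left_inv := by rintro ((s | i) | j) <;> rfl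
      right_inv := by rintro ((s | j) | i) <;> rfl }
  have h3 := h1.reindex ((g.sumCongr (Equiv.refl (Fin (m + 1)))).trans g')
  refine tors hP (X (Sum.inr 0) * rename Sum.inl (hf f)) (eqv k) (fun T => pr_tree hP T)
    (h3.congr ?_)
  intro C _ _ v
  have e1 : ∀ l, aeval (fun s => v (((g.sumCongr (Equiv.refl (Fin (m + 1)))).trans g')
      (Sum.inl s))) (qf ((SS (d := d) f l).submatrix g g)) =
      bv (MM f l) (fun a => v (g' (Sum.inl a))) (fun a => v (g' (Sum.inl a))) := by
    intro l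
    have e2 := aeval_sub (SS (d := d) f l) g (fun a => v (g' (Sum.inl a)))
    rw [bv_ss, ← two_mul, ← mul_assoc, ← map_ofNat (algebraMap k C) 2, ← map_mul,
      inv_mul_cancel₀ h2, map_one, one_mul] at e2
    exact e2
  have e3 : ∀ l, ((g.sumCongr (Equiv.refl (Fin (m + 1)))).trans g') (Sum.inr l) =
    Sum.inl (Sum.inr l) := fun _ => rfl
  simp only [e1, e3]
  have e4 := bv_sum (E := C) f (fun l => v (Sum.inl (Sum.inr l))) (fun a => v (g' (Sum.inl a)))
    (fun a => v (g' (Sum.inl a)))
  have e5 : ∀ l, bv (MM f l) (fun a => v (g' (Sum.inl a))) (fun a => v (g' (Sum.inl a))) *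
      v (Sum.inl (Sum.inr l)) = v (Sum.inl (Sum.inr l)) *
      bv (MM f l) (fun a => v (g' (Sum.inl a))) (fun a => v (g' (Sum.inl a))) :=
    fun l => mul_comm _ _
  simp only [e5]
  rw [e4]
  have g1 : ∀ s, g' (Sum.inl (Sum.inl s)) = Sum.inl (Sum.inl s) := fun _ => rfl
  have g2 : ∀ i, g' (Sum.inl (Sum.inr i)) = Sum.inr i := fun _ => rfl
  simp only [g1, g2, map_mul, aeval_X, aeval_rename, Function.comp_def, aeval_eqv, aeval_hf]
  rw [Finset.sum_mul]
  have e6 : ∀ μ : Mo m d, algebraMap k C (cf f μ) * v (Sum.inl (Sum.inl μ)) *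
      v (Sum.inl (Sum.inl 0)) = algebraMap k C (cf f μ) * (v (Sum.inl (Sum.inl μ)) *
      v (Sum.inl (Sum.inl 0))) := fun μ => mul_assoc _ _ _
  simp only [e6]
  have e7 : ∀ i : Nz m d, v (Sum.inr i) * (v (Sum.inl (Sum.inr 0)) * v (Sum.inl (Sum.inl i.1)) -
      v (Sum.inl (Sum.inr (ed i).1.2.succ)) * v (Sum.inl (Sum.inl (ed i).1.1))) =
      (v (Sum.inl (Sum.inr 0)) * v (Sum.inl (Sum.inl i.1)) -
      v (Sum.inl (Sum.inr (ed i).1.2.succ)) * v (Sum.inl (Sum.inl (ed i).1.1))) *
      v (Sum.inr i) := fun i => mul_comm _ _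
  simp only [e7]

/-- `z_0 f(z) u ^ 2 = 1` -/
lemma pr_xi' (h2 : (2 : k) ≠ 0) {m : ℕ}
    (hJ : ∀ (N : ℕ) (S : Fin (m + 1) → Matrix (Fin N) (Fin N) k), (∀ j, (S j).IsSymm) →
      Odd ((pmat S).map (algebraMap _ (FractionRing (MvPolynomial (Fin m) k)))).rank →
      Pr P (fun C _ _ v => ∑ l, aeval (fun s => v (Sum.inl s)) (qf (S l)) * v (Sum.inr l) = 1 :
        Cond k (Fin N ⊕ Fin (m + 1)))) (f : MvPolynomial (Fin m) k) (hf0 : f ≠ 0) :
    Pr P (fun C _ _ v => v (Sum.inr ()) * (aeval (fun i => v (Sum.inl (Sum.inl i))) f *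
      v (Sum.inl (Sum.inr ())) ^ 2) = 1 : Cond k ((Fin m ⊕ Unit) ⊕ Unit)) := by
  let d := f.totalDegree
  have h1 := pr_sys' hP h2 hJ (d := d) f hf0 le_rfl
  have hr : Rp (fun C _ _ v => v (Sum.inr ()) * (aeval (fun i => v (Sum.inl (Sum.inl i))) f *
      v (Sum.inl (Sum.inr ())) ^ 2) = 1 : Cond k ((Fin m ⊕ Unit) ⊕ Unit)) := by
    refine ((rp_true k _).cl (X (Sum.inr ()) * (rename (fun i => Sum.inl (Sum.inl i)) f *
      X (Sum.inl (Sum.inr ())) ^ 2) - 1)).congr ?_
    intro C _ _ v
    simp only [map_sub, map_mul, map_pow, map_one, aeval_X, aeval_rename, Function.comp_def,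
      sub_eq_zero, true_and]
  refine h1.pull hP hr (Sum.elim
    (fun m => (∏ i, X (Sum.inl (Sum.inl i)) ^ (m i : ℕ)) * X (Sum.inl (Sum.inr ())))
    (Fin.cons (X (Sum.inr ())) fun i => X (Sum.inr ()) * X (Sum.inl (Sum.inl i)))) ?_ ?_ ?_
  · intro C _ _ v hv
    have hm : ∀ μ : Mo m d, aeval v ((∏ i, X (Sum.inl (Sum.inl i)) ^ (μ i : ℕ)) *
        X (Sum.inl (Sum.inr ())) : MvPolynomial ((Fin m ⊕ Unit) ⊕ Unit) k) =
        mono (fun i => v (Sum.inl (Sum.inl i))) μ * v (Sum.inl (Sum.inr ())) := by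
      intro μ
      rw [map_mul, map_prod, aeval_X]
      simp only [map_pow, aeval_X, mono]
    have h0 : mono (fun i => v (Sum.inl (Sum.inl i))) (0 : Mo m d) = 1 := by
      simp [mono]
    refine ⟨?_, fun i => ?_⟩
    · rw [map_mul, aeval_X, aeval_rename, aeval_hf]
      simp only [Function.comp_def, Sum.elim_inl, Sum.elim_inr, Fin.cons_zero, aeval_X, hm]
      rw [h0, one_mul]
      rw [aeval_cf f le_rfl (fun i => v (Sum.inl (Sum.inl i))), Finset.sum_mul] at hv
      rw [← hv]
      congr 1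
      apply Finset.sum_congr rfl
      intro μ _
      ring
    · rw [aeval_eqv]
      simp only [Sum.elim_inl, Sum.elim_inr, Fin.cons_zero, Fin.cons_succ, hm, mono_ed, map_mul,
        aeval_X]
      ring
  · intro C _ _ v w hv hw h
    have hz0 : v (Sum.inr ()) = w (Sum.inr ()) := by
      simpa only [Sum.elim_inr, Fin.cons_zero, aeval_X] using h (Sum.inr 0)
    have hu : IsUnit (v (Sum.inr ())) := IsUnit.of_mul_eq_one _ hv
    have hu0 : v (Sum.inl (Sum.inr ())) = w (Sum.inl (Sum.inr ())) := by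
      have h3 := h (Sum.inl 0)
      simp only [Sum.elim_inl, aeval_X, Pi.zero_apply,
        Fin.val_zero, pow_zero, Finset.prod_const_one, one_mul] at h3
      exact h3
    have hz : ∀ i, v (Sum.inl (Sum.inl i)) = w (Sum.inl (Sum.inl i)) := by
      intro i
      have h3 := h (Sum.inr i.succ)
      simp only [Sum.elim_inr, Fin.cons_succ, map_mul, aeval_X] at h3
      rw [← hz0] at h3
      exact hu.mul_left_cancel h3
    funext s
    rcases s with (i | ⟨⟩) | ⟨⟩
    · exact hz i
    · exact hu0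
    · exact hz0
  · intro C _ _ v hv
    have h2 := hv.1
    rw [map_mul, aeval_X, aeval_rename, aeval_hf] at h2
    have hu : IsUnit (v (Sum.inr 0)) := IsUnit.of_mul_eq_one _ h2
    obtain ⟨y, hy⟩ := hu.exists_right_inv
    let z : Fin m → C := fun i => v (Sum.inr i.succ) * y
    have hz : ∀ i, v (Sum.inr 0) * z i = v (Sum.inr i.succ) := by
      intro i
      change v (Sum.inr 0) * (v (Sum.inr i.succ) * y) = _
      linear_combination v (Sum.inr i.succ) * hy
    have h3 := tree_sol z (fun μ => v (Sum.inl μ)) (by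
      intro i
      have h4 := hv.2 i
      rw [aeval_eqv, sub_eq_zero] at h4
      refine hu.mul_left_cancel ?_
      rw [h4, ← hz]
      ring)
    refine ⟨Sum.elim (Sum.elim z fun _ => v (Sum.inl 0)) fun _ => v (Sum.inr 0), ?_, ?_⟩
    · simp only [Sum.elim_inl, Sum.elim_inr]
      rw [← h2, aeval_cf f le_rfl z, Finset.sum_mul]
      congr 1
      apply Finset.sum_congr rfl
      intro μ _
      simp only [Function.comp_apply]
      have h5 : v (Sum.inl μ) = mono z μ * v (Sum.inl 0) := h3 μ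
      rw [h5]
      ring
    · rintro (μ | j)
      · simp only [Sum.elim_inl, Sum.elim_inr, map_mul, map_prod, map_pow, aeval_X]
        exact (h3 μ).symm
      · refine Fin.cases ?_ (fun i => ?_) j
        · simp only [Sum.elim_inr, Fin.cons_zero, aeval_X]
        · simp only [Sum.elim_inl, Sum.elim_inr, Fin.cons_succ, map_mul, aeval_X]
          exact hz i

/-- intersections of quadrics of odd generic rank decide hypersurfaces -/
theorem hyper_of_hyp (h2 : (2 : k) ≠ 0) {m : ℕ}
    (hJ : ∀ (N : ℕ) (S : Fin (m + 1) → Matrix (Fin N) (Fin N) k), (∀ j, (S j).IsSymm) →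
      Odd ((pmat S).map (algebraMap _ (FractionRing (MvPolynomial (Fin m) k)))).rank →
      Pr P (fun C _ _ v => ∑ l, aeval (fun s => v (Sum.inl s)) (qf (S l)) * v (Sum.inr l) = 1 :
        Cond k (Fin N ⊕ Fin (m + 1)))) (f : MvPolynomial (Fin m) k) :
    Pr P (fun C _ _ v => aeval v f = 0 : Cond k (Fin m)) := by
  by_cases hf0 : f = 0
  · refine (pr_true hP).congr fun C _ _ v => ?_
    rw [hf0, map_zero]
    exact ⟨fun _ => rfl, fun _ => trivial⟩
  have h1 := pr_xi' hP h2 hJ f hf0
  let g : MvPolynomial (Fin m ⊕ Unit) k := rename Sum.inl f * X (Sum.inr ()) ^ 2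
  have hg : ∀ (C : Type) [CommRing C] [Algebra k C] (v : Fin m ⊕ Unit → C),
      aeval v g = aeval (fun i => v (Sum.inl i)) f * v (Sum.inr ()) ^ 2 := by
    intro C _ _ v
    simp only [g, map_mul, map_pow, aeval_X, aeval_rename, Function.comp_def]
  have h3 : Pr P (fun C _ _ v => True ∧ IsUnit (aeval v g) : Cond k (Fin m ⊕ Unit)) := by
    refine h1.push (fun s => X (Sum.inl s)) ?_ ?_ ?_
    · intro C _ _ v hv
      simp only [aeval_X]
      refine ⟨trivial, ?_⟩
      rw [hg]
      exact IsUnit.of_mul_eq_one_right _ hv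
    · intro C _ _ v w hv hw h
      have e0 : (fun s => v (Sum.inl s)) = fun s => w (Sum.inl s) := by
        funext s
        simpa only [aeval_X] using h s
      have e1 : ∀ s, w (Sum.inl s) = v (Sum.inl s) := fun s => (congrFun e0 s).symm
      simp only [e1] at hw
      funext s
      rcases s with s | ⟨⟩
      · exact congrFun e0 s
      · exact (IsUnit.of_mul_eq_one_right _ hv).mul_right_cancel (hv.trans hw.symm)
    · intro C _ _ v hv
      obtain ⟨y, hy⟩ := hv.2.exists_left_inv
      rw [hg] at hy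
      refine ⟨Sum.elim v fun _ => y, hy, fun s => ?_⟩
      rw [aeval_X, Sum.elim_inl]
  have h4 := (pr_true hP (σ := Fin m ⊕ Unit)).clo hP g h3
  refine hyper_of_sq hP f (h4.congr ?_)
  intro C _ _ v
  rw [hg, true_and]

end

end Pool.Agent.L5helper70.OD
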