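import Pool.Agent.L5helper70.OD.Gen

/-!
# From conic bundles to hypersurfaces, and intersections of quadrics
-/

set_option autoImplicit false
set_option linter.unusedVariables false
set_option maxHeartbeats 1000000

open CategoryTheory AlgebraicGeometry MvPolynomial Matrix Pool.Agent.Y116.UV Pool.Agent.Z125.UN
  Pool.Agent.L5helper70.QF

namespace Pool.Agent.L5helper70.OD

section

variable {k : Type} [Field k] {P : Sch k → Prop} {sep : Prop} (hP : Bnd sep P)

include hP

/-- The hypersurfaces of the affine space of dimension `n` decide all schemes of dimension less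
than `n`. -/
theorem dimLt_of_hyper [PerfectField k] {n : ℕ}
    (h1 : ∀ f : MvPolynomial (Fin n) k, Pr P (fun C _ _ v => aeval v f = 0 : Cond k (Fin n))) :
    DimLt P n := by
  refine dimLt_of_closed hP fun I => ?_
  obtain ⟨T, hT⟩ := (isNoetherianRing_iff_ideal_fg _).mp
    (inferInstance : IsNoetherianRing (MvPolynomial (Fin n) k)) I
  have h3 := pr_inters hP (fun j : MvPolynomial (Fin n) k => j) h1 T 0
  have h4 : Repr (MvPolynomial (Fin n) k ⧸ Ideal.span (Set.range fun j : T =>
        aeval (X : Fin n → MvPolynomial (Fin n) k) (j.1)))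
      (fun s => Ideal.Quotient.mk _ (X s)) (fun C _ _ v => (∀ j ∈ T, aeval v j = 0) ∧
        aeval v (0 : MvPolynomial (Fin n) k) = 0 : Cond k (Fin n)) :=
    (repr_true.closed (fun j : T => j.1)).congr (by
      intro C _ _ v
      rw [map_zero]
      constructor
      · rintro ⟨-, h⟩
        exact ⟨fun j hj => h ⟨j, hj⟩, rfl⟩
      · rintro ⟨h, -⟩
        exact ⟨trivial, fun j => h j.1 j.2⟩)
  rw [pr_iff hP h4] at h3
  have h5 : Ideal.span (Set.range fun j : T => aeval (X : Fin n → MvPolynomial (Fin n) k) j.1) =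
      I := by
    rw [← hT]
    congr 1
    ext p
    constructor
    · rintro ⟨j, rfl⟩
      change aeval X j.1 ∈ _
      rw [aeval_X_left_apply]
      exact j.2
    · intro hp
      exact ⟨⟨p, hp⟩, aeval_X_left_apply p⟩
  rw [h5] at h3
  exact h3

omit hP in
/-- the cone of a matrix of polynomials as a condition -/
lemma repr_cone {m N : ℕ} (S : Matrix (Fin N) (Fin N) (MvPolynomial (Fin m) k)) :
    ∃ x : Fin m ⊕ Fin N → Cone S, Repr (Cone S) x (fun C _ _ v =>
      (fun j => v (Sum.inr j)) ⬝ᵥ (S.map (aeval fun b => v (Sum.inl b)) *ᵥ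
        fun j => v (Sum.inr j)) = 0 : Cond k (Fin m ⊕ Fin N)) := by
  have h1 := (repr_true (R := k) (σ := Fin m)).fam (qf S) (qf S) (by
    have h : (aeval X : MvPolynomial (Fin m) k →ₐ[k] MvPolynomial (Fin m) k).toRingHom =
        RingHom.id _ := by
      apply MvPolynomial.ringHom_ext
      · intro r
        exact aeval_X_left_apply _
      · intro s
        exact aeval_X_left_apply _
    rw [h, MvPolynomial.map_id])
  refine ⟨_, h1.congr ?_⟩
  intro C _ _ v
  rw [true_and]
  have h2 : ev (fun b => v (Sum.inl b)) (fun j => v (Sum.inr j)) (qf S) =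
      (fun j => v (Sum.inr j)) ⬝ᵥ (S.map (aeval fun b => v (Sum.inl b)) *ᵥ
        fun j => v (Sum.inr j)) := by
    simp only [qf, map_sum, map_mul, ev_X, ev_C, dotProduct, mulVec, map_apply, Finset.mul_sum]
    refine Finset.sum_congr rfl fun i _ => Finset.sum_congr rfl fun j _ => ?_
    ring
  rw [h2]

/-- the conic bundle `f s ^ 2 + u w = 0` -/
noncomputable def conic {m : ℕ} (f : MvPolynomial (Fin m) k) :
    Matrix (Fin 3) (Fin 3) (MvPolynomial (Fin m) k) :=
  !![f, 0, 0; 0, 0, C 2⁻¹; 0, C 2⁻¹, 0]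

omit hP in
lemma conic_symm {m : ℕ} (f : MvPolynomial (Fin m) k) : (conic f).IsSymm := by
  ext i j
  fin_cases i <;> fin_cases j <;> rfl

omit hP in
lemma conic_det {m : ℕ} (h2 : (2 : k) ≠ 0) (f : MvPolynomial (Fin m) k) (hf : f ≠ 0) :
    (conic f).det ≠ 0 := by
  rw [conic, det_fin_three]
  simp
  exact ⟨hf, h2⟩

/-- from `f s ^ 2 = 0` to `f = 0` -/
lemma hyper_of_sq {m : ℕ} (f : MvPolynomial (Fin m) k)
    (h6 : Pr P (fun C _ _ v => aeval (fun b => v (Sum.inl b)) f * v (Sum.inr ()) ^ 2 = 0 :
      Cond k (Fin m ⊕ Unit))) : Pr P (fun C _ _ v => aeval v f = 0 : Cond k (Fin m)) := by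
  have h7 : Pr P (fun C _ _ v => (aeval (fun b => v (Sum.inl b)) f * v (Sum.inr ()) ^ 2 = 0) ∧
      IsUnit (aeval v (X (Sum.inr ()) : MvPolynomial (Fin m ⊕ Unit) k)) :
        Cond k (Fin m ⊕ Unit)) := by
    refine h6.opn hP (X (Sum.inr ())) ?_
    refine (pr_true hP (σ := Fin m)).push (Sum.elim X fun _ => 0) ?_ ?_ ?_
    · intro C _ _ v _
      simp only [Sum.elim_inl, Sum.elim_inr, aeval_X, map_zero, ne_eq, OfNat.ofNat_ne_zero,
        not_false_eq_true, zero_pow, mul_zero, true_and]
    · intro C _ _ v w _ _ h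
      funext s
      simpa only [Sum.elim_inl, aeval_X] using h (Sum.inl s)
    · intro C _ _ v hv
      have h8 := hv.2
      rw [aeval_X] at h8
      refine ⟨fun i => v (Sum.inl i), trivial, ?_⟩
      rintro (i | ⟨⟩)
      · simp only [Sum.elim_inl, aeval_X]
      · simp only [Sum.elim_inr, map_zero]
        exact h8.symm
  have hr' : Rp (fun C _ _ v => aeval v f = 0 : Cond k (Fin m)) :=
    ((rp_true k (Fin m)).cl f).congr fun C _ _ v => by rw [true_and]
  refine Pr.torus hP hr' (h7.congr ?_)
  intro C _ _ v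
  rw [aeval_X]
  constructor
  · rintro ⟨h8, h9⟩
    exact ⟨(h9.pow 2).mul_left_eq_zero.mp h8, h9⟩
  · rintro ⟨h8, h9⟩
    rw [h8, zero_mul]
    exact ⟨rfl, h9⟩

omit hP in
lemma qf_conic (h2 : (2 : k) ≠ 0) {m : ℕ} (f : MvPolynomial (Fin m) k) :
    qf (conic f) = C f * X 0 ^ 2 + X 1 * X 2 := by
  have h3 : (C (C 2⁻¹) + C (C 2⁻¹) : MvPolynomial (Fin 3) (MvPolynomial (Fin m) k)) = 1 := by
    rw [← map_add, ← map_add, ← two_mul, mul_inv_cancel₀ h2, map_one, map_one]
  simp only [qf, conic, Fin.sum_univ_three, of_apply, cons_val_zero, cons_val_one, cons_val,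
    map_zero, zero_mul, add_zero, zero_add]
  linear_combination (X 1 * X 2) * h3

/-- special conic bundles decide hypersurfaces -/
theorem hyper_of_conic (h2 : (2 : k) ≠ 0) {m : ℕ}
    (h : ∀ f : MvPolynomial (Fin m) k, f ≠ 0 →
      P (aff k (Cone (conic f)))) (f : MvPolynomial (Fin m) k) :
    Pr P (fun C _ _ v => aeval v f = 0 : Cond k (Fin m)) := by
  by_cases hf : f = 0
  · refine (pr_true hP).congr fun C _ _ v => ?_
    rw [hf, map_zero]
    exact ⟨fun _ => rfl, fun _ => trivial⟩
  obtain ⟨x, hx⟩ := repr_cone (conic f)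
  have i1 := ft_cone (R := k) (conic f)
  have h1 := (pr_iff hP hx).mpr (h f hf)
  have h3 : Pr P (fun C _ _ v => aeval (fun b => v (Sum.inl b)) f * v (Sum.inr 0) ^ 2 +
      v (Sum.inr 1) * v (Sum.inr 2) = 0 : Cond k (Fin m ⊕ Fin 3)) := by
    refine h1.congr fun C _ _ v => ?_
    have h4 : algebraMap k C 2⁻¹ + algebraMap k C 2⁻¹ = 1 := by
      rw [← map_add, ← two_mul, mul_inv_cancel₀ h2, map_one]
    have h5 : (fun j => v (Sum.inr j)) ⬝ᵥ ((conic f).map (aeval fun b => v (Sum.inl b)) *ᵥ
        fun j => v (Sum.inr j)) = aeval (fun b => v (Sum.inl b)) f * v (Sum.inr 0) ^ 2 +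
      v (Sum.inr 1) * v (Sum.inr 2) := by
      simp [conic, dotProduct, mulVec, Fin.sum_univ_three]
      linear_combination (v (Sum.inr 1) * v (Sum.inr 2)) * h4
    rw [h5]
  -- the part `u ≠ 0`
  have h4 : Pr P (fun C _ _ v => (aeval (fun b => v (Sum.inl b)) f * v (Sum.inr 0) ^ 2 +
      v (Sum.inr 1) * v (Sum.inr 2) = 0) ∧ IsUnit (aeval v (X (Sum.inr 1) :
        MvPolynomial (Fin m ⊕ Fin 3) k)) : Cond k (Fin m ⊕ Fin 3)) := by
    refine (((pr_true hP (σ := Fin m)).free hP Unit).unit hP).pull hP (h3.rp.op _)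
      (Sum.elim (Sum.elim (fun i => X (Sum.inl i)) fun _ => X (Sum.inr 0))
        fun _ => X (Sum.inr 1)) ?_ ?_ ?_
    · intro C _ _ v hv
      have h5 := hv.2
      rw [aeval_X] at h5
      simp only [Sum.elim_inr, aeval_X]
      exact ⟨trivial, h5⟩
    · intro C _ _ v w hv hw h
      have e0 : ∀ i, v (Sum.inl i) = w (Sum.inl i) := by
        intro i
        simpa only [Sum.elim_inl, aeval_X] using h (Sum.inl (Sum.inl i))
      have e1 : v (Sum.inr 0) = w (Sum.inr 0) := by
        simpa only [Sum.elim_inl, Sum.elim_inr, aeval_X] using h (Sum.inl (Sum.inr ()))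
      have e2 : v (Sum.inr 1) = w (Sum.inr 1) := by
        simpa only [Sum.elim_inr, aeval_X] using h (Sum.inr ())
      have h5 := hv.2
      rw [aeval_X] at h5
      have h6 := hv.1
      have h7 := hw.1
      have e3 : (fun b => w (Sum.inl b)) = fun b => v (Sum.inl b) := funext fun b => (e0 b).symm
      rw [e3, ← e1, ← e2] at h7
      funext s
      rcases s with i | j
      · exact e0 i
      · fin_cases j
        · exact e1
        · exact e2
        · refine h5.mul_left_cancel ?_
          change v (Sum.inr 1) * v (Sum.inr 2) = v (Sum.inr 1) * w (Sum.inr 2)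
          linear_combination h6 - h7
    · intro C _ _ v hv
      obtain ⟨y, hy⟩ := hv.2.exists_right_inv
      refine ⟨Sum.elim (fun i => v (Sum.inl (Sum.inl i))) ![v (Sum.inl (Sum.inr ())),
        v (Sum.inr ()), -(aeval (fun i => v (Sum.inl (Sum.inl i))) f *
          v (Sum.inl (Sum.inr ())) ^ 2 * y)], ⟨?_, ?_⟩, ?_⟩
      · change aeval (fun i => v (Sum.inl (Sum.inl i))) f * v (Sum.inl (Sum.inr ())) ^ 2 +
          v (Sum.inr ()) * -(aeval (fun i => v (Sum.inl (Sum.inl i))) f *
          v (Sum.inl (Sum.inr ())) ^ 2 * y) = 0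
        linear_combination -(aeval (fun i => v (Sum.inl (Sum.inl i))) f *
          v (Sum.inl (Sum.inr ())) ^ 2) * hy
      · rw [aeval_X]
        exact hv.2
      · rintro ((i | ⟨⟩) | ⟨⟩)
        · simp only [Sum.elim_inl, aeval_X]
        · rw [Sum.elim_inl, Sum.elim_inr, aeval_X]
          rfl
        · rw [Sum.elim_inr, aeval_X]
          rfl
  have h5 := h3.clo hP (X (Sum.inr 1)) h4
  have hr : Rp (fun C _ _ v => aeval (fun b => v (Sum.inl b)) f * v (Sum.inr ()) ^ 2 = 0 :
      Cond k (Fin m ⊕ Unit)) := by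
    refine ((rp_true k (Fin m ⊕ Unit)).cl (rename Sum.inl f * X (Sum.inr ()) ^ 2)).congr ?_
    intro C _ _ v
    rw [true_and, map_mul, map_pow, aeval_X, aeval_rename]
    rfl
  have h6 : Pr P (fun C _ _ v => aeval (fun b => v (Sum.inl b)) f * v (Sum.inr ()) ^ 2 = 0 :
      Cond k (Fin m ⊕ Unit)) := by
    refine Pr.unfree hP (τ := Unit) hr ?_
    refine h5.push (Sum.elim (Sum.elim (fun i => X (Sum.inl i)) fun _ => X (Sum.inr 0))
        fun _ => X (Sum.inr 2)) ?_ ?_ ?_
    · intro C _ _ v hv
      have h7 := hv.2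
      have h8 := hv.1
      rw [aeval_X] at h7
      rw [h7, zero_mul, add_zero] at h8
      simp only [Sum.elim_inl, Sum.elim_inr, aeval_X]
      exact h8
    · intro C _ _ v w hv hw h
      have h7 := hv.2
      have h8 := hw.2
      rw [aeval_X] at h7 h8
      funext s
      rcases s with i | j
      · simpa only [Sum.elim_inl, aeval_X] using h (Sum.inl (Sum.inl i))
      · have e1 : v (Sum.inr 0) = w (Sum.inr 0) := by
          simpa only [Sum.elim_inl, Sum.elim_inr, aeval_X] using h (Sum.inl (Sum.inr ()))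
        have e2 : v (Sum.inr 2) = w (Sum.inr 2) := by
          simpa only [Sum.elim_inr, aeval_X] using h (Sum.inr ())
        fin_cases j
        · exact e1
        · exact h7.trans h8.symm
        · exact e2
    · intro C _ _ v hv
      refine ⟨Sum.elim (fun i => v (Sum.inl (Sum.inl i))) ![v (Sum.inl (Sum.inr ())), 0,
        v (Sum.inr ())], ⟨?_, ?_⟩, ?_⟩
      · change aeval (fun i => v (Sum.inl (Sum.inl i))) f * v (Sum.inl (Sum.inr ())) ^ 2 +
          0 * v (Sum.inr ()) = 0
        rw [zero_mul, add_zero]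
        exact hv
      · rw [aeval_X]
        rfl
      · rintro ((i | ⟨⟩) | ⟨⟩)
        · simp only [Sum.elim_inl, aeval_X]
        · rw [Sum.elim_inl, Sum.elim_inr, aeval_X]
          rfl
        · rw [Sum.elim_inr, aeval_X]
          rfl
  exact hyper_of_sq hP f h6

end

section

variable {R : Type} [CommRing R] {P : Sch R → Prop} {sep : Prop} (hP : Bnd sep P)

include hP

/-- one more quadric -/
theorem hy_step {N m : ℕ} (q : Fin (m + 1) → MvPolynomial (Fin N) R)
    (ih : Pr P (fun C _ _ v => ∑ l : Fin m, aeval (fun s => v (Sum.inl s)) (q l.succ) *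
      v (Sum.inr l) = 1 : Cond R (Fin N ⊕ Fin m)))
    (h : Pr P (fun C _ _ v => ev (fun b => v (Sum.inl b)) (fun j => v (Sum.inr j)) (pencil q) = 0 :
      Cond R (Fin m ⊕ Fin N))) :
    Pr P (fun C _ _ v => ∑ l, aeval (fun s => v (Sum.inl s)) (q l) * v (Sum.inr l) = 1 :
      Cond R (Fin N ⊕ Fin (m + 1))) := by
  refine Pr.split hP (X (Sum.inr 0)) (rp_sumOne R q) ?_ ?_
  · refine ih.push (Sum.elim (fun s => X (Sum.inl s))
      (Fin.cons 0 fun j => X (Sum.inr j))) ?_ ?_ ?_
    · intro C _ _ v hv
      rw [Fin.sum_univ_succ]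
      simp only [Sum.elim_inl, Sum.elim_inr, Fin.cons_zero, Fin.cons_succ, aeval_X, map_zero,
        mul_zero, zero_add]
      exact ⟨hv, trivial⟩
    · intro C _ _ v w _ _ h
      funext s
      rcases s with s | j
      · simpa only [Sum.elim_inl, aeval_X] using h (Sum.inl s)
      · simpa only [Sum.elim_inr, Fin.cons_succ, aeval_X] using h (Sum.inr j.succ)
    · intro C _ _ v hv
      have h0 := hv.2
      rw [aeval_X] at h0
      have h1 := hv.1
      rw [Fin.sum_univ_succ, h0, mul_zero, zero_add] at h1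
      refine ⟨Sum.elim (fun s => v (Sum.inl s)) fun j => v (Sum.inr j.succ), h1, ?_⟩
      rintro (s | j)
      · simp only [Sum.elim_inl, aeval_X]
      · refine Fin.cases ?_ (fun j => ?_) j
        · simp only [Sum.elim_inr, Fin.cons_zero, map_zero]
          exact h0.symm
        · simp only [Sum.elim_inr, Fin.cons_succ, aeval_X]
  · -- the complement of the family of quadrics
    have h1 : Pr P (fun C _ _ v => True ∧ IsUnit (aeval v (gp Sum.inl Sum.inr (pencil q))) :
        Cond R (Fin m ⊕ Fin N)) := by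
      refine (pr_true hP).opn hP (gp Sum.inl Sum.inr (pencil q)) ?_
      refine h.congr ?_
      intro C _ _ v
      rw [aeval_gp, true_and]
    -- `y_0 Q(y', x) = 1`
    have h2 : Pr P (fun C _ _ v => True ∧ aeval v (X (Sum.inr ()) *
        rename Sum.inl (gp Sum.inl Sum.inr (pencil q)) - 1 :
          MvPolynomial ((Fin m ⊕ Fin N) ⊕ Unit) R) = 0 : Cond R ((Fin m ⊕ Fin N) ⊕ Unit)) := by
      refine h1.pull hP ((rp_true R _).cl _) (fun s => X (Sum.inl s)) ?_ ?_ ?_
      · intro C _ _ v hv
        have h3 := hv.2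
        rw [map_sub, map_mul, aeval_X, aeval_rename, map_one, sub_eq_zero] at h3
        refine ⟨trivial, ?_⟩
        simp only [aeval_X]
        exact IsUnit.of_mul_eq_one_right _ h3
      · intro C _ _ v w hv hw h
        have h3 := hv.2
        have h4 := hw.2
        rw [map_sub, map_mul, aeval_X, aeval_rename, map_one, sub_eq_zero] at h3 h4
        have e0 : v ∘ Sum.inl = w ∘ Sum.inl := by
          funext s
          have h5 := h s
          rw [aeval_X, aeval_X] at h5
          exact h5
        rw [← e0] at h4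
        have h5 : IsUnit (aeval (v ∘ Sum.inl) (gp Sum.inl Sum.inr (pencil q))) :=
          IsUnit.of_mul_eq_one_right _ h3
        funext s
        rcases s with s | ⟨⟩
        · exact congrFun e0 s
        · exact h5.mul_right_cancel (h3.trans h4.symm)
      · intro C _ _ v hv
        obtain ⟨y, hy⟩ := hv.2.exists_left_inv
        refine ⟨Sum.elim v fun _ => y, ⟨trivial, ?_⟩, ?_⟩
        · rw [map_sub, map_mul, aeval_X, aeval_rename, map_one, sub_eq_zero, Sum.elim_inr,
            Sum.elim_comp_inl]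
          exact hy
        · intro s
          simp only [aeval_X, Sum.elim_inl]
    refine h2.push (Sum.elim (fun s => X (Sum.inl (Sum.inr s)))
      (Fin.cons (X (Sum.inr ())) fun j => X (Sum.inr ()) * X (Sum.inl (Sum.inl j)))) ?_ ?_ ?_
    · intro C _ _ v hv
      have h3 := hv.2
      rw [map_sub, map_mul, aeval_X, aeval_rename, map_one, sub_eq_zero, aeval_gp,
        ev_pencil] at h3
      rw [Fin.sum_univ_succ]
      simp only [Sum.elim_inl, Sum.elim_inr, Fin.cons_zero, Fin.cons_succ, aeval_X, map_mul]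
      refine ⟨?_, IsUnit.of_mul_eq_one _ h3⟩
      rw [← h3, mul_add, Finset.mul_sum]
      congr 1
      · exact mul_comm _ _
      · apply Finset.sum_congr rfl
        intro j _
        simp only [Function.comp_apply]
        ring
    · intro C _ _ v w hv hw h
      have h3 := hv.2
      rw [map_sub, map_mul, aeval_X, aeval_rename, map_one, sub_eq_zero] at h3
      have e0 : v (Sum.inr ()) = w (Sum.inr ()) := by
        simpa only [Sum.elim_inr, Fin.cons_zero, aeval_X] using h (Sum.inr 0)
      funext s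
      rcases s with (j | s) | ⟨⟩
      · have h4 := h (Sum.inr j.succ)
        simp only [Sum.elim_inr, Fin.cons_succ, map_mul, aeval_X] at h4
        rw [← e0] at h4
        exact (IsUnit.of_mul_eq_one _ h3).mul_left_cancel h4
      · simpa only [Sum.elim_inl, aeval_X] using h (Sum.inl s)
      · exact e0
    · intro C _ _ v hv
      have hu := hv.2
      rw [aeval_X] at hu
      obtain ⟨y, hy⟩ := hu.exists_right_inv
      have h3 := hv.1
      rw [Fin.sum_univ_succ] at h3
      refine ⟨Sum.elim (Sum.elim (fun j => v (Sum.inr j.succ) * y) fun s => v (Sum.inl s))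
        fun _ => v (Sum.inr 0), ⟨trivial, ?_⟩, ?_⟩
      · rw [map_sub, map_mul, aeval_X, aeval_rename, map_one, sub_eq_zero, aeval_gp, ev_pencil]
        simp only [Sum.elim_inr, Function.comp_apply, Sum.elim_inl]
        rw [← h3, mul_add, Finset.mul_sum]
        congr 1
        · exact mul_comm _ _
        · apply Finset.sum_congr rfl
          intro j _
          linear_combination v (Sum.inr j.succ) * aeval (fun s => v (Sum.inl s)) (q j.succ) * hy
      · rintro (s | j)
        · simp only [Sum.elim_inl, Sum.elim_inr, aeval_X]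
        · refine Fin.cases ?_ (fun j => ?_) j
          · simp only [Sum.elim_inr, Fin.cons_zero, aeval_X]
          · simp only [Sum.elim_inl, Sum.elim_inr, Fin.cons_succ, map_mul, aeval_X]
            linear_combination v (Sum.inr j.succ) * hy

end

section

variable {k : Type} [Field k] {P : Sch k → Prop} {sep : Prop} (hP : Bnd sep P)

/-- the matrix `S_0 + z_1 S_1 + … + z_m S_m` -/
noncomputable def pmat {m N : ℕ} (S : Fin (m + 1) → Matrix (Fin N) (Fin N) k) :
    Matrix (Fin N) (Fin N) (MvPolynomial (Fin m) k) :=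
  (S 0).map C + ∑ j : Fin m, (X j : MvPolynomial (Fin m) k) • (S j.succ).map C

lemma pmat_symm {m N : ℕ} (S : Fin (m + 1) → Matrix (Fin N) (Fin N) k) (h : ∀ j, (S j).IsSymm) :
    (pmat S).IsSymm := by
  have h1 : ∀ i, ((S i).map (C : k → MvPolynomial (Fin m) k))ᵀ = (S i).map C := by
    intro i
    rw [← transpose_map, (h i).eq]
  rw [Matrix.IsSymm, pmat, transpose_add, transpose_sum]
  congr 1
  · exact h1 0
  · refine Finset.sum_congr rfl fun j _ => ?_
    rw [transpose_smul, h1]

lemma qf_pmat {m N : ℕ} (S : Fin (m + 1) → Matrix (Fin N) (Fin N) k) :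
    qf (pmat S) = pencil fun j => qf (S j) := by
  have h1 : ∀ i, MvPolynomial.map (C : k →+* MvPolynomial (Fin m) k) (qf (S i)) =
      qf ((S i).map C) := fun i => map_qf _ _
  rw [pencil]
  simp only [h1]
  have h2 : ∀ i j, pmat S i j = C (S 0 i j) + ∑ l : Fin m, X l * C (S l.succ i j) := by
    intro i j
    rw [pmat, Matrix.add_apply, Matrix.sum_apply]
    rfl
  simp only [qf, h2, map_add, map_sum, map_mul, map_apply, add_mul, Finset.sum_add_distrib,
    Finset.mul_sum, Finset.sum_mul]
  congr 1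
  have h3 : ∀ x : Fin N, ∑ y : Fin N, ∑ i : Fin m, (C (X i) * C (C (S i.succ x y)) * X x * X y :
    MvPolynomial (Fin N) (MvPolynomial (Fin m) k)) = ∑ i : Fin m, ∑ y : Fin N,
      C (X i) * C (C (S i.succ x y)) * X x * X y := fun x => Finset.sum_comm
  simp only [h3]
  rw [Finset.sum_comm]
  refine Finset.sum_congr rfl fun i _ => ?_
  refine Finset.sum_congr rfl fun x _ => Finset.sum_congr rfl fun y _ => ?_
  ring

include hP

/-- families of quadrics over affine spaces of small dimension -/
lemma qfam_of_dim (hQ : Dbl1 P) (h2 : IsUnit (2 : k)) {n : ℕ} (h : DimLe P n) {i : ℕ}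
    (hi : i ≤ n) : QFam P i := by
  rw [qfam_iff hP]
  intro N Q hQ2
  refine fam_of_dim hP hQ h2 h (MvPolynomial (Fin i) k) ?_ N Q hQ2
  rw [MvPolynomial.ringKrullDim_of_isNoetherianRing, ringKrullDim_eq_zero_of_field, zero_add,
    Nat.card_eq_fintype_card, Fintype.card_fin]
  exact_mod_cast hi

omit hP in
lemma deg_qf {A ι : Type} [CommRing A] [Nontrivial A] [Fintype ι] (S : Matrix ι ι A) :
    (qf S).totalDegree ≤ 2 := by
  refine totalDegree_finsetSum_le fun i _ => totalDegree_finsetSum_le fun j _ => ?_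
  refine (totalDegree_mul _ _).trans ?_
  refine (Nat.add_le_add (totalDegree_mul _ _) le_rfl).trans ?_
  rw [totalDegree_C]
  have h7 := totalDegree_X (R := A) i
  have h8 := totalDegree_X (R := A) j
  omega

/-- intersections of `n + 2` quadrics of odd generic rank -/
theorem hyp_of_dim (hQ : Dbl1 P) (hO : OddP P) (h2 : IsUnit (2 : k)) {n : ℕ} (h : DimLe P n)
    {N : ℕ} (S : Fin (n + 2) → Matrix (Fin N) (Fin N) k) (hS : ∀ j, (S j).IsSymm)
    (hr : Odd ((pmat S).map (algebraMap _ (FractionRing (MvPolynomial (Fin (n + 1)) k)))).rank) :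
    P (aff k (Jou fun j => qf (S j))) := by
  have h1 : P (aff k (Cone (pmat S))) := by
    refine cone_odd hP hQ hO h2 h _ ?_ (hP.space _) (pmat S) (pmat_symm S hS) hr
    rw [MvPolynomial.ringKrullDim_of_isNoetherianRing, ringKrullDim_eq_zero_of_field, zero_add,
      Nat.card_eq_fintype_card, Fintype.card_fin]
  have h3 := (repr_true (R := k) (σ := Fin (n + 1))).fam (qf (pmat S)) (qf (pmat S)) (by
    have h : (aeval X : MvPolynomial (Fin (n + 1)) k →ₐ[k] MvPolynomial (Fin (n + 1)) k).toRingHom =
        RingHom.id _ := by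
      apply MvPolynomial.ringHom_ext
      · intro r
        exact aeval_X_left_apply _
      · intro s
        exact aeval_X_left_apply _
    rw [h, MvPolynomial.map_id])
  have i1 := ft_cone (R := k) (pmat S)
  have h4 := (pr_iff hP h3).mpr h1
  have hd : ∀ j, (qf (S j)).totalDegree ≤ 2 := fun j => deg_qf (S j)
  have h5 := hy_step hP (fun j => qf (S j))
    (hy_of hP (m := n + 1) (fun i hi => qfam_of_dim hP hQ h2 h (by omega)) N
      (fun j => qf (S j.succ)) fun j => hd _) (h4.congr (by
        intro C _ _ v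
        rw [true_and, qf_pmat]))
  have h6 := (repr_true (R := k) (σ := Fin N)).jou' (fun j => qf (S j)) (fun j => qf (S j))
    fun l => aeval_X_left_apply _
  have i2 := ft_jou (R := k) fun j => qf (S j)
  refine (pr_iff hP h6).mp (h5.congr ?_)
  intro C _ _ v
  rw [true_and]

end

end Pool.Agent.L5helper70.OD
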