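import Mathlib

/-!
# Quadratic forms given by matrices: substitutions and diagonalization
-/

set_option autoImplicit false
set_option maxHeartbeats 1000000
set_option linter.unusedSectionVars false

open MvPolynomial Matrix

namespace Pool.Agent.L5helper70.OD

section form

variable {A : Type} [CommRing A] {ι κ : Type} [Fintype ι] [Fintype κ]

/-- the quadratic form `xᵀ S x` -/
noncomputable def qf (S : Matrix ι ι A) : MvPolynomial ι A := ∑ i, ∑ j, C (S i j) * X i * X j

/-- the cone `xᵀ S x = 0` -/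
abbrev Cone (S : Matrix ι ι A) : Type := MvPolynomial ι A ⧸ Ideal.span {qf S}

lemma aeval_qf {E : Type} [CommRing E] [Algebra A E] (S : Matrix ι ι A) (v : ι → E) :
    aeval v (qf S) = v ⬝ᵥ (S.map (algebraMap A E) *ᵥ v) := by
  simp only [qf, map_sum, map_mul, aeval_X, algHom_C, dotProduct, mulVec, map_apply,
    Finset.mul_sum]
  refine Finset.sum_congr rfl fun i _ => Finset.sum_congr rfl fun j _ => ?_
  ring

lemma map_qf {E : Type} [CommRing E] (f : A →+* E) (S : Matrix ι ι A) :
    MvPolynomial.map f (qf S) = qf (S.map f) := by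
  simp only [qf, map_sum, map_mul, MvPolynomial.map_X, map_C, map_apply]

lemma qf_eq (S : Matrix ι ι A) : qf S = X ⬝ᵥ (S.map (algebraMap A (MvPolynomial ι A)) *ᵥ X) := by
  rw [← aeval_qf, aeval_X_left_apply]

lemma quad_sub {E : Type} [CommRing E] (T : Matrix ι ι E) (g : Matrix ι κ E) (v : κ → E) :
    (g *ᵥ v) ⬝ᵥ (T *ᵥ (g *ᵥ v)) = v ⬝ᵥ ((gᵀ * T * g) *ᵥ v) := by
  rw [← mulVec_mulVec, ← mulVec_mulVec, dotProduct_mulVec v gᵀ, vecMul_transpose]

/-- the linear substitution -/
noncomputable def lin (g : Matrix ι κ A) : MvPolynomial ι A →ₐ[A] MvPolynomial κ A :=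
  aeval (g.map (algebraMap A (MvPolynomial κ A)) *ᵥ X)

lemma lin_X (g : Matrix ι κ A) (i : ι) :
    lin g (X i) = (g.map (algebraMap A (MvPolynomial κ A)) *ᵥ X) i := by
  rw [lin, aeval_X]

lemma lin_qf (g : Matrix ι κ A) (S : Matrix ι ι A) : lin g (qf S) = qf (gᵀ * S * g) := by
  rw [lin, aeval_qf, qf_eq, quad_sub, Matrix.map_mul, Matrix.map_mul]
  rfl

lemma lin_lin {μ : Type} [Fintype μ] (g : Matrix ι κ A) (h : Matrix κ μ A) :
    (lin h).comp (lin g) = lin (g * h) := by
  apply MvPolynomial.algHom_ext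
  intro i
  rw [AlgHom.comp_apply, lin_X, lin_X, mulVec, dotProduct, map_sum, Matrix.map_mul,
    ← mulVec_mulVec]
  simp only [map_mul, lin_X]
  refine Finset.sum_congr rfl fun j _ => ?_
  congr 1
  exact (lin h).commutes (g i j)

lemma lin_one [DecidableEq ι] : lin (1 : Matrix ι ι A) = AlgHom.id A _ := by
  apply MvPolynomial.algHom_ext
  intro i
  rw [lin_X, Matrix.map_one _ (map_zero _) (map_one _), one_mulVec]
  rfl

/-- linear substitutions are isomorphisms -/
noncomputable def linEquiv [DecidableEq ι] [DecidableEq κ] (g : Matrix ι κ A) (h : Matrix κ ι A)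
    (h1 : g * h = 1) (h2 : h * g = 1) : MvPolynomial ι A ≃ₐ[A] MvPolynomial κ A :=
  AlgEquiv.ofAlgHom (lin g) (lin h) (by rw [lin_lin, h2, lin_one]) (by rw [lin_lin, h1, lin_one])

/-- the cones of equivalent forms -/
lemma cone_equiv [DecidableEq ι] [DecidableEq κ] (S : Matrix ι ι A) (g : Matrix ι κ A)
    (h : Matrix κ ι A) (h1 : g * h = 1) (h2 : h * g = 1) :
    Nonempty (Cone (gᵀ * S * g) ≃ₐ[A] Cone S) := by
  refine ⟨(Ideal.quotientEquivAlg _ _ (linEquiv g h h1 h2) ?_).symm⟩
  have h3 : ((linEquiv g h h1 h2 : MvPolynomial ι A →+* MvPolynomial κ A) (qf S)) =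
      qf (gᵀ * S * g) := lin_qf g S
  rw [Ideal.map_span, Set.image_singleton, h3]

/-- forms which do not depend on some of the variables -/
lemma cone_blocks (T : Matrix κ κ A) :
    Nonempty (MvPolynomial ι (Cone T) ≃ₐ[A] Cone (fromBlocks (0 : Matrix ι ι A) 0 0 T)) := by
  have e1 : MvPolynomial ι (Cone T) ≃ₐ[A] MvPolynomial ι (MvPolynomial κ A) ⧸
      (Ideal.map C (Ideal.span {qf T}) : Ideal (MvPolynomial ι (MvPolynomial κ A))) :=
    (quotientEquivQuotientMvPolynomial (σ := ι) (Ideal.span {qf T})).restrictScalars A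
  refine ⟨e1.trans (Ideal.quotientEquivAlg _ _ (sumAlgEquiv A ι κ) ?_).symm⟩
  rw [Ideal.map_span, Ideal.map_span, Set.image_singleton, Set.image_singleton]
  congr 2
  have h1 : ∀ p, ((sumAlgEquiv A ι κ : MvPolynomial (ι ⊕ κ) A →+* _) p) =
      sumAlgEquiv A ι κ p := fun _ => rfl
  rw [h1]
  simp only [qf, map_sum, map_mul, Fintype.sum_sum_type, fromBlocks_apply₁₁, fromBlocks_apply₁₂,
    fromBlocks_apply₂₁, fromBlocks_apply₂₂, Matrix.zero_apply, map_zero, zero_mul,
    Finset.sum_const_zero, zero_add, sumAlgEquiv_X_inr, sumAlgEquiv_C_inl]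

end form

section field

variable {K : Type} [Field K]

/-- diagonalization -/
lemma exists_diag (h2 : (2 : K) ≠ 0) {N : ℕ} (S : Matrix (Fin N) (Fin N) K) (hS : S.IsSymm) :
    ∃ (g h : Matrix (Fin N) (Fin N) K) (d : Fin N → K), g * h = 1 ∧ h * g = 1 ∧
      gᵀ * S * g = diagonal d := by
  have := invertibleOfNonzero h2
  obtain ⟨v, hv⟩ := LinearMap.BilinForm.exists_orthogonal_basis
    (LinearMap.BilinForm.isSymm_iff.mp (Matrix.isSymm_toBilin'_iff_isSymm.mpr hS))
  have e0 : Module.finrank K (Fin N → K) = N := Module.finrank_fin_fun K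
  let w : Module.Basis (Fin N) K (Fin N → K) := v.reindex (finCongr e0)
  have hw : ∀ i j, i ≠ j → w i ⬝ᵥ S *ᵥ w j = 0 := by
    intro i j hij
    rw [← Matrix.toBilin'_apply']
    have h1 := hv (i := (finCongr e0).symm i) (j := (finCongr e0).symm j)
      (fun h => hij ((finCongr e0).symm.injective h))
    simp only [w, Module.Basis.reindex_apply]
    exact h1
  let g : Matrix (Fin N) (Fin N) K := (Pi.basisFun K (Fin N)).toMatrix w
  let h : Matrix (Fin N) (Fin N) K := w.toMatrix (Pi.basisFun K (Fin N))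
  have hg : ∀ i j, g i j = w j i := fun i j => rfl
  refine ⟨g, h, fun i => w i ⬝ᵥ S *ᵥ w i, ?_, ?_, ?_⟩
  · exact Module.Basis.toMatrix_mul_toMatrix_flip _ _
  · exact Module.Basis.toMatrix_mul_toMatrix_flip _ _
  · ext i j
    have h1 : (gᵀ * S * g) i j = w i ⬝ᵥ S *ᵥ w j := by
      rw [Matrix.mul_assoc, Matrix.mul_apply']
      rfl
    rw [h1]
    by_cases hij : i = j
    · rw [hij, diagonal_apply_eq]
    · rw [diagonal_apply_ne _ hij, hw i j hij]

/-- normal form -/
lemma exists_normal (h2 : (2 : K) ≠ 0) {N : ℕ} (S : Matrix (Fin N) (Fin N) K) (hS : S.IsSymm) :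
    ∃ (τ : Type) (_ : Fintype τ) (_ : DecidableEq τ) (g : Matrix (Fin N) (τ ⊕ Fin S.rank) K)
      (h : Matrix (τ ⊕ Fin S.rank) (Fin N) K) (u : Fin S.rank → K), g * h = 1 ∧ h * g = 1 ∧
      gᵀ * S * g = fromBlocks (0 : Matrix τ τ K) 0 0 (diagonal u) ∧ ∀ i, u i ≠ 0 := by
  classical
  obtain ⟨g, h, d, h3, h4, h5⟩ := exists_diag h2 S hS
  have hr : S.rank = Fintype.card {i // d i ≠ 0} := by
    rw [← rank_diagonal, ← h5]
    have hu : IsUnit g.det := by
      rw [← Matrix.isUnit_iff_isUnit_det]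
      exact ⟨⟨g, h, h3, h4⟩, rfl⟩
    rw [Matrix.rank_mul_eq_left_of_isUnit_det _ _ hu,
      Matrix.rank_mul_eq_right_of_isUnit_det _ _ (by rwa [det_transpose])]
  let e : {i // d i ≠ 0} ≃ Fin S.rank := Fintype.equivFinOfCardEq hr.symm
  let E : {i // ¬ d i ≠ 0} ⊕ Fin S.rank ≃ Fin N :=
    (((Equiv.refl _).sumCongr e.symm).trans (Equiv.sumComm _ _)).trans
      (Equiv.sumCompl fun i => d i ≠ 0)
  have hE1 : ∀ i, d (E (Sum.inl i)) = 0 := fun i => not_not.mp i.2
  have hE2 : ∀ i, d (E (Sum.inr i)) ≠ 0 := fun i => (e.symm i).2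
  refine ⟨{i // ¬ d i ≠ 0}, inferInstance, inferInstance, g.submatrix id E, h.submatrix E id,
    fun i => d (E (Sum.inr i)), ?_, ?_, ?_, hE2⟩
  · rw [submatrix_mul_equiv, h3]
    rfl
  · rw [← submatrix_mul _ _ _ _ _ Function.bijective_id, h4]
    exact submatrix_one_equiv E
  · rw [transpose_submatrix]
    have h6 : gᵀ.submatrix E id * S = (gᵀ * S).submatrix E id := by
      rw [submatrix_mul _ _ _ id _ Function.bijective_id, submatrix_id_id]
    rw [h6, ← submatrix_mul _ _ _ _ _ Function.bijective_id, h5]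
    ext i j
    rw [submatrix_apply]
    rcases i with i | i <;> rcases j with j | j
    · rw [fromBlocks_apply₁₁, Matrix.zero_apply]
      by_cases hij : i = j
      · rw [hij, diagonal_apply_eq, hE1]
      · rw [diagonal_apply_ne _ fun h => hij (Sum.inl_injective (E.injective h))]
    · rw [fromBlocks_apply₁₂, Matrix.zero_apply,
        diagonal_apply_ne _ fun h => Sum.inl_ne_inr (E.injective h)]
    · rw [fromBlocks_apply₂₁, Matrix.zero_apply,
        diagonal_apply_ne _ fun h => Sum.inr_ne_inl (E.injective h)]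
    · rw [fromBlocks_apply₂₂]
      by_cases hij : i = j
      · rw [hij, diagonal_apply_eq, diagonal_apply_eq]
      · rw [diagonal_apply_ne _ hij,
          diagonal_apply_ne _ fun h => hij (Sum.inr_injective (E.injective h))]

/-- clearing denominators -/
lemma exists_clear (B : Type) [CommRing B] [IsDomain B] (s : Finset (FractionRing B)) :
    ∃ (b : B) (φ : Localization.Away b →+* FractionRing B), b ≠ 0 ∧ Function.Injective φ ∧
      (∀ x : B, φ (algebraMap B _ x) = algebraMap B _ x) ∧ ∀ a ∈ s, ∃ a', φ a' = a := by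
  obtain ⟨⟨b, hb⟩, h1⟩ := IsLocalization.exist_integer_multiples_of_finset (nonZeroDivisors B) s
  have hb0 : b ≠ 0 := nonZeroDivisors.ne_zero hb
  have hbK : algebraMap B (FractionRing B) b ≠ 0 := fun h =>
    hb0 ((FaithfulSMul.algebraMap_injective B (FractionRing B)) (h.trans (map_zero _).symm))
  let φ : Localization.Away b →+* FractionRing B :=
    IsLocalization.Away.lift b (g := algebraMap B (FractionRing B)) (isUnit_iff_ne_zero.mpr hbK)
  have hφ : ∀ x : B, φ (algebraMap B _ x) = algebraMap B _ x := fun x =>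
    IsLocalization.Away.lift_eq b _ x
  refine ⟨b, φ, hb0, ?_, hφ, fun a ha => ?_⟩
  · refine (injective_iff_map_eq_zero φ).mpr fun x hx => ?_
    obtain ⟨n, c, h2⟩ := IsLocalization.Away.surj b x
    have h3 := congrArg φ h2
    rw [map_mul, hx, zero_mul, hφ] at h3
    have h4 : c = 0 := (FaithfulSMul.algebraMap_injective B (FractionRing B))
      (h3.symm.trans (map_zero _).symm)
    rw [h4, map_zero] at h2
    exact ((IsLocalization.Away.algebraMap_isUnit b).pow n).mul_left_eq_zero.mp h2
  · obtain ⟨c, hc⟩ := h1 a ha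
    refine ⟨algebraMap B _ c * IsLocalization.Away.invSelf b, ?_⟩
    have h5 : φ (IsLocalization.Away.invSelf b) * algebraMap B (FractionRing B) b = 1 := by
      rw [← hφ b, ← map_mul, mul_comm, IsLocalization.Away.mul_invSelf, map_one]
    have h6 : algebraMap B (FractionRing B) c = algebraMap B (FractionRing B) b * a := by
      rw [hc, Algebra.smul_def]
    rw [map_mul, hφ, h6]
    linear_combination a * h5

end field

section generic

variable {B : Type} [CommRing B] [IsDomain B]

/-- normal form over an open subset -/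
lemma exists_open (h2 : (2 : B) ≠ 0) {N : ℕ} (S : Matrix (Fin N) (Fin N) B) (hS : S.IsSymm) :
    ∃ (b : B) (τ : Type) (_ : Fintype τ) (_ : DecidableEq τ)
      (g : Matrix (Fin N) (τ ⊕ Fin (S.map (algebraMap B (FractionRing B))).rank)
        (Localization.Away b))
      (h : Matrix (τ ⊕ Fin (S.map (algebraMap B (FractionRing B))).rank) (Fin N)
        (Localization.Away b))
      (u : Fin (S.map (algebraMap B (FractionRing B))).rank → Localization.Away b),
      b ≠ 0 ∧ g * h = 1 ∧ h * g = 1 ∧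
      gᵀ * S.map (algebraMap B (Localization.Away b)) * g =
        fromBlocks (0 : Matrix τ τ (Localization.Away b)) 0 0 (diagonal u) ∧ ∀ i, IsUnit (u i) := by
  classical
  have h2' : (2 : FractionRing B) ≠ 0 := by
    intro h
    apply h2
    apply FaithfulSMul.algebraMap_injective B (FractionRing B)
    rw [map_ofNat, map_zero, h]
  obtain ⟨τ, i1, i2, g, h, u, e1, e2, e3, e4⟩ := exists_normal h2'
    (S.map (algebraMap B (FractionRing B))) (by
      rw [Matrix.IsSymm, ← transpose_map, hS.eq])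
  obtain ⟨b, φ, hb, hinj, hφ, hs⟩ := exists_clear B
    ((Finset.univ.image fun p : Fin N × _ => g p.1 p.2) ∪
      (Finset.univ.image fun p : _ × Fin N => h p.1 p.2) ∪
      (Finset.univ.image u) ∪ (Finset.univ.image fun i => (u i)⁻¹))
  have hg : ∀ i j, ∃ a, φ a = g i j := fun i j => hs _ (by
    simp only [Finset.mem_union, Finset.mem_image, Finset.mem_univ, true_and]
    exact Or.inl (Or.inl (Or.inl ⟨(i, j), rfl⟩)))
  have hh : ∀ i j, ∃ a, φ a = h i j := fun i j => hs _ (by
    simp only [Finset.mem_union, Finset.mem_image, Finset.mem_univ, true_and]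
    exact Or.inl (Or.inl (Or.inr ⟨(i, j), rfl⟩)))
  have hu : ∀ i, ∃ a, φ a = u i := fun i => hs _ (by
    simp only [Finset.mem_union, Finset.mem_image, Finset.mem_univ, true_and]
    exact Or.inl (Or.inr ⟨i, rfl⟩))
  have hu' : ∀ i, ∃ a, φ a = (u i)⁻¹ := fun i => hs _ (by
    simp only [Finset.mem_union, Finset.mem_image, Finset.mem_univ, true_and]
    exact Or.inr ⟨i, rfl⟩)
  choose g' hg' using hg
  choose h' hh' using hh
  choose u' hu2 using hu
  choose w' hw' using hu'
  have eg : (Matrix.of g').map φ = g := by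
    ext i j
    exact hg' i j
  have eh : (Matrix.of h').map φ = h := by
    ext i j
    exact hh' i j
  have hmi : ∀ {m n : Type} (M M' : Matrix m n (Localization.Away b)), M.map φ = M'.map φ →
      M = M' := fun M M' h => Matrix.map_injective hinj h
  refine ⟨b, τ, i1, i2, Matrix.of g', Matrix.of h', u', hb, ?_, ?_, ?_, fun i => ?_⟩
  · apply hmi
    rw [Matrix.map_mul, eg, eh, e1, Matrix.map_one _ (map_zero _) (map_one _)]
  · apply hmi
    rw [Matrix.map_mul, eg, eh, e2, Matrix.map_one _ (map_zero _) (map_one _)]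
  · apply hmi
    rw [Matrix.map_mul, Matrix.map_mul, transpose_map, eg, fromBlocks_map,
      Matrix.map_zero _ (map_zero _), Matrix.map_zero _ (map_zero _),
      Matrix.map_zero _ (map_zero _), diagonal_map (map_zero _)]
    have e5 : (S.map (algebraMap B (Localization.Away b))).map φ =
        S.map (algebraMap B (FractionRing B)) := by
      ext i j
      exact hφ _
    rw [e5, e3]
    congr 2
    funext i
    exact (hu2 i).symm
  · refine IsUnit.of_mul_eq_one (w' i) (hinj ?_)
    rw [map_mul, hu2, hw', map_one]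
    exact mul_inv_cancel₀ (e4 i)

end generic

end Pool.Agent.L5helper70.OD
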