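import Pool.Agent.L5helper70.OD.Form
import Pool.Agent.L5helper70.QF.Over

/-!
# Families of quadrics of odd generic rank
-/

set_option autoImplicit false
set_option linter.unusedVariables false
set_option maxHeartbeats 1000000

open CategoryTheory AlgebraicGeometry MvPolynomial Matrix Pool.Agent.Y116.UV Pool.Agent.Z125.UN
  Pool.Agent.L5helper70.QF

namespace Pool.Agent.L5helper70.OD

/-- nondegenerate quadratic forms of odd rank -/
structure OddP {R : Type} [CommRing R] (P : Sch R → Prop) : Prop where
  odd : ∀ (A : Type) [CommRing A] [Algebra R A] [Algebra.FiniteType R A] (r : ℕ)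
    (S : Matrix (Fin r) (Fin r) A), Odd r → S.IsSymm → IsUnit S.det → P (aff R A) →
      P (aff R (Cone S))

lemma ft_cone {R A ι : Type} [CommRing R] [CommRing A] [Algebra R A] [Algebra.FiniteType R A]
    [Fintype ι] (S : Matrix ι ι A) : Algebra.FiniteType R (Cone S) :=
  have : Algebra.FiniteType R (MvPolynomial ι A) :=
    Algebra.FiniteType.trans (S := A) inferInstance inferInstance
  inferInstance

section

variable {R : Type} [CommRing R] {P : Sch R → Prop} {sep : Prop} (hP : Bnd sep P)

include hP

lemma cone_open (hO : OddP P) {A : Type} [CommRing A] [Algebra R A] [Algebra.FiniteType R A]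
    {τ : Type} [Fintype τ] [DecidableEq τ] {r N : ℕ} (S : Matrix (Fin N) (Fin N) A)
    (g : Matrix (Fin N) (τ ⊕ Fin r) A) (h : Matrix (τ ⊕ Fin r) (Fin N) A) (u : Fin r → A)
    (e1 : g * h = 1) (e2 : h * g = 1)
    (e3 : gᵀ * S * g = fromBlocks (0 : Matrix τ τ A) 0 0 (diagonal u)) (e4 : ∀ i, IsUnit (u i))
    (hr : Odd r) (hA : P (aff R A)) : P (aff R (Cone S)) := by
  have i1 := ft_cone (R := R) (diagonal u)
  have i2 : Algebra.FiniteType R (MvPolynomial τ (Cone (diagonal u))) :=
    Algebra.FiniteType.trans (S := Cone (diagonal u)) inferInstance inferInstance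
  have i3 := ft_cone (R := R) (fromBlocks (0 : Matrix τ τ A) 0 0 (diagonal u))
  have i4 := ft_cone (R := R) S
  have h1 : P (aff R (Cone (diagonal u))) := hO.odd A r (diagonal u) hr (isSymm_diagonal u) (by
    rw [det_diagonal]
    exact IsUnit.prod_univ_iff.mpr e4) hA
  have h2 := p_poly hP τ h1
  obtain ⟨f1⟩ := cone_blocks (ι := τ) (diagonal u)
  have h3 := iso_alg hP.toUni (f1.restrictScalars R) h2
  obtain ⟨f2⟩ := cone_equiv S g h e1 e2
  rw [e3] at f2
  exact iso_alg hP.toUni (f2.restrictScalars R) h3

end

section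

variable {k : Type} [Field k] {P : Sch k → Prop} {sep : Prop} (hP : Bnd sep P)

include hP

/-- Families of quadrics of odd generic rank over integral bases. -/
theorem cone_odd (hQ : Dbl1 P) (hO : OddP P) (h2 : IsUnit (2 : k)) {n : ℕ} (h : DimLe P n)
    (B : Type) [CommRing B] [IsDomain B] [Algebra k B] [Algebra.FiniteType k B]
    (hB : ringKrullDim B ≤ (n + 1 : ℕ)) (hPB : P (aff k B)) {N : ℕ}
    (S : Matrix (Fin N) (Fin N) B) (hS : S.IsSymm)
    (hr : Odd (S.map (algebraMap B (FractionRing B))).rank) : P (aff k (Cone S)) := by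
  have h2B : (2 : B) ≠ 0 := by
    have h3 := h2.map (algebraMap k B)
    rw [map_ofNat] at h3
    exact h3.ne_zero
  obtain ⟨b, τ, i1, i2, g, h', u, hb, e1, e2, e3, e4⟩ := exists_open h2B S hS
  -- the closed part
  have hd : ringKrullDim (B ⧸ Ideal.span {b}) ≤ n := by
    have h3 := ringKrullDim_quotient_succ_le_of_nonZeroDivisor
      (mem_nonZeroDivisors_of_ne_zero hb)
    have h4 := h3.trans hB
    have h5 : ((n + 1 : ℕ) : WithBot ℕ∞) = (n : WithBot ℕ∞) + 1 := by push_cast; rfl
    rw [h5] at h4
    exact ENat.WithBot.add_le_add_one_right_iff.mp h4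
  -- the open part
  have i3 : Algebra.FiniteType k (Localization.Away b) :=
    Algebra.FiniteType.trans (S := B) inferInstance inferInstance
  have hA : P (aff k (Localization.Away b)) := ring_open hP b (h _ hd) hPB
  have hop := cone_open hP hO (S.map (algebraMap B (Localization.Away b))) g h' u e1 e2 e3 e4 hr hA
  -- presentation of the base
  obtain ⟨m, x, Ψ, hR, hx⟩ := exists_repr (k := k) B
  obtain ⟨b', hb'⟩ := hx b
  choose S' hS' using fun i j => hx (S i j)
  have hmap : MvPolynomial.map (aeval x : MvPolynomial (Fin m) k →ₐ[k] B).toRingHom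
      (qf (Matrix.of S')) = qf S := by
    rw [map_qf]
    congr 1
    ext i j
    exact hS' i j
  have h6 := hR.fam (qf (Matrix.of S')) (qf S) hmap
  have i4 := ft_cone (R := k) S
  refine (pr_iff hP h6).mp ?_
  refine Pr.split hP (rename Sum.inl b') ⟨_, inferInstance, inferInstance, i4, _, h6⟩ ?_ ?_
  · have hK : KDim n (fun C _ _ v => Ψ C v ∧ aeval v b' = 0 : Cond k (Fin m)) :=
      ⟨_, inferInstance, inferInstance, inferInstance, _, hR.closed1' b' b hb', hd⟩
    have hdeg : (qf (Matrix.of S')).totalDegree ≤ 2 := by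
      refine totalDegree_finsetSum_le fun i _ => totalDegree_finsetSum_le fun j _ => ?_
      refine (totalDegree_mul _ _).trans ?_
      refine (Nat.add_le_add (totalDegree_mul _ _) le_rfl).trans ?_
      rw [totalDegree_C]
      have h7 := totalDegree_X (R := MvPolynomial (Fin m) k) i
      have h8 := totalDegree_X (R := MvPolynomial (Fin m) k) j
      omega
    refine (quad_all hP (kdim_class hP hQ h2 (β := Fin m) h) h2 hK _ hdeg).congr ?_
    intro C _ _ v
    rw [aeval_rename]
    exact and_right_comm
  · have h7 := (hR.opened' b' b hb').fam (qf (Matrix.of S'))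
      (qf (S.map (algebraMap B (Localization.Away b)))) (by
        rw [map_qf]
        congr 1
        ext i j
        rw [map_apply, map_apply, ← hS' i j]
        exact aeval_map (IsScalarTower.toAlgHom k B (Localization.Away b)) x (S' i j))
    have i5 := ft_cone (R := k) (S.map (algebraMap B (Localization.Away b)))
    refine ((pr_iff hP h7).mpr hop).congr ?_
    intro C _ _ v
    rw [aeval_rename]
    exact and_right_comm

end

end Pool.Agent.L5helper70.OD
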