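import Pool.Agent.L5helper70.OD.Conv
import Pool.Agent.L5helper70.QF.Linz

/-!
# Equations between monomials along a tree
-/

set_option autoImplicit false
set_option linter.unusedVariables false
set_option maxHeartbeats 1000000

open CategoryTheory AlgebraicGeometry MvPolynomial Pool.Agent.Y116.UV Pool.Agent.Z125.UN
  Pool.Agent.L5helper70.QF

namespace Pool.Agent.L5helper70.OD

section

variable {R : Type} [CommRing R] {P : Sch R → Prop} {sep : Prop} (hP : Bnd sep P)

include hP

/-- tori -/
lemma pr_torus (n : ℕ) : Pr P (fun C _ _ v => ∀ i, IsUnit (v i) : Cond R (Fin n)) := by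
  induction n with
  | zero =>
    refine (pr_true hP (σ := Fin 0)).congr fun C _ _ v => ?_
    exact ⟨fun _ i => i.elim0, fun _ => trivial⟩
  | succ n ih =>
    have h1 := ih.unit hP
    let e : Fin n ⊕ Unit ≃ Fin (n + 1) :=
      (Equiv.optionEquivSumPUnit (Fin n)).symm.trans (finSuccEquiv n).symm
    have e1 : ∀ i, e (Sum.inl i) = Fin.succ i := fun i => rfl
    have e2 : e (Sum.inr ()) = 0 := rfl
    refine (h1.reindex e).congr ?_
    intro C _ _ v
    dsimp only
    rw [Fin.forall_fin_succ, e2]
    simp only [e1]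
    exact and_comm

/-- some of the coordinates are invertible -/
lemma pr_units {σ : Type} [Finite σ] (I : Finset σ) :
    Pr P (fun C _ _ v => ∀ s ∈ I, IsUnit (v s) : Cond R σ) := by
  classical
  have := Fintype.ofFinite σ
  have h1 := (pr_torus hP (Fintype.card {s // s ∈ I})).reindex
    (Fintype.equivFin {s // s ∈ I}).symm
  have h2 := (h1.free hP {s // s ∉ I}).reindex (Equiv.sumCompl fun s => s ∈ I)
  refine h2.congr ?_
  intro C _ _ v
  constructor
  · intro h s hs
    have h3 := h (Fintype.equivFin {s // s ∈ I} ⟨s, hs⟩)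
    simpa using h3
  · intro h i
    exact h _ ((Fintype.equivFin {s // s ∈ I}).symm i).2

/-- zero sets of products of variables -/
lemma pr_prod {σ : Type} [Finite σ] (I : Finset σ) :
    Pr P (fun C _ _ v => aeval v (∏ s ∈ I, X s : MvPolynomial σ R) = 0 : Cond R σ) := by
  refine ((pr_true hP).clo hP (∏ s ∈ I, X s) ?_).congr fun C _ _ v => by rw [true_and]
  refine (pr_units hP I).congr ?_
  intro C _ _ v
  rw [map_prod, IsUnit.prod_iff]
  simp only [aeval_X, true_and]

/-- zero sets of sets of products of variables -/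
lemma pr_prods {σ : Type} [Finite σ] [DecidableEq σ] (T : Finset (Finset σ)) :
    ∀ I : Finset σ, Pr P (fun C _ _ v => (∀ J ∈ T, ∏ s ∈ J, v s = 0) ∧ ∏ s ∈ I, v s = 0 :
      Cond R σ) := by
  have h0 : ∀ (J : Finset σ) (C : Type) [CommRing C] [Algebra R C] (v : σ → C),
      aeval v (∏ s ∈ J, X s : MvPolynomial σ R) = ∏ s ∈ J, v s := by
    intro J C _ _ v
    rw [map_prod]
    simp only [aeval_X]
  induction T using Finset.induction_on with
  | empty =>
    intro I
    refine (pr_prod hP I).congr ?_
    intro C _ _ v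
    rw [h0]
    exact ⟨fun h => ⟨fun j hj => absurd hj (Finset.notMem_empty j), h⟩, fun h => h.2⟩
  | insert J T hJ ih =>
    intro I
    have h1 : Pr P (fun C _ _ v => ((∀ J ∈ T, ∏ s ∈ J, v s = 0) ∧ ∏ s ∈ J, v s = 0) ∧
        aeval v (∏ s ∈ I, X s : MvPolynomial σ R) = 0 : Cond R σ) := by
      refine (ih J).clo hP (∏ s ∈ I, X s) ?_
      have h2 := (ih (J ∪ I)).opn hP (∏ s ∈ I, X s) ((ih I).congr (by
        intro C _ _ v
        rw [h0]
        constructor
        · rintro ⟨h3, h4⟩
          refine ⟨⟨h3, ?_⟩, h4⟩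
          rw [← Finset.sdiff_union_self_eq_union, Finset.prod_union Finset.sdiff_disjoint, h4,
            mul_zero]
        · rintro ⟨⟨h3, -⟩, h4⟩
          exact ⟨h3, h4⟩))
      refine h2.congr ?_
      intro C _ _ v
      rw [h0]
      constructor
      · rintro ⟨⟨h3, h4⟩, h5⟩
        refine ⟨⟨h3, ?_⟩, h5⟩
        rw [← Finset.sdiff_union_self_eq_union, Finset.prod_union Finset.sdiff_disjoint] at h4
        have h6 := h5.mul_left_eq_zero.mp h4
        rw [← Finset.sdiff_union_inter J I, Finset.prod_union (Finset.disjoint_sdiff_inter J I), h6,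
          zero_mul]
      · rintro ⟨⟨h3, h4⟩, h5⟩
        refine ⟨⟨h3, ?_⟩, h5⟩
        rw [← Finset.union_sdiff_self_eq_union, Finset.prod_union Finset.disjoint_sdiff, h4,
          zero_mul]
    refine h1.congr ?_
    intro C _ _ v
    rw [h0, Finset.forall_mem_insert]
    refine and_congr_left fun _ => and_comm

end

end Pool.Agent.L5helper70.OD
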