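import Pool.Agent.L5helper70.OD.Mono

/-!
# Equations between monomials along a tree
-/

set_option autoImplicit false
set_option linter.unusedVariables false
set_option maxHeartbeats 1000000

open CategoryTheory AlgebraicGeometry MvPolynomial Matrix Pool.Agent.Y116.UV Pool.Agent.Z125.UN
  Pool.Agent.L5helper70.QF

namespace Pool.Agent.L5helper70.OD

section tree

variable {m d : ℕ}

/-- the degree -/
def dg (μ : Mo m d) : ℕ := ∑ i, (μ i : ℕ)

lemma exists_ed (μ : Mo m d) (h : μ ≠ 0) : ∃ e : Ed m d, up e = μ ∧ dg e.1.1 + 1 = dg μ := by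
  have h1 : ∃ i, (μ i : ℕ) ≠ 0 := by
    by_contra hcon
    push Not at hcon
    exact h (funext fun i => Fin.ext (hcon i))
  obtain ⟨i, hi⟩ := h1
  have hlt : (μ i : ℕ) - 1 < d + 1 := by
    have := (μ i).2
    omega
  let m' : Mo m d := Function.update μ i ⟨(μ i : ℕ) - 1, hlt⟩
  have hm'i : (m' i : ℕ) = (μ i : ℕ) - 1 := by
    change ((Function.update μ i ⟨(μ i : ℕ) - 1, hlt⟩ i : Fin (d + 1)) : ℕ) = _
    rw [Function.update_self]
  refine ⟨⟨(m', i), ?_⟩, ?_, ?_⟩
  · change (m' i : ℕ) < d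
    have := (μ i).2
    omega
  · funext j
    by_cases hj : j = i
    · rw [hj]
      apply Fin.ext
      change ((Function.update m' i ⟨(m' i : ℕ) + 1, _⟩ i : Fin (d + 1)) : ℕ) = _
      rw [Function.update_self]
      change (m' i : ℕ) + 1 = _
      omega
    · change Function.update m' i ⟨(m' i : ℕ) + 1, _⟩ j = _
      rw [Function.update_of_ne hj]
      change Function.update μ i ⟨(μ i : ℕ) - 1, hlt⟩ j = _
      rw [Function.update_of_ne hj]
  · change (∑ j, (m' j : ℕ)) + 1 = ∑ j, (μ j : ℕ)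
    rw [← Finset.add_sum_erase _ _ (Finset.mem_univ i),
      ← Finset.add_sum_erase Finset.univ (fun j => (μ j : ℕ)) (Finset.mem_univ i)]
    have h2 : ∑ j ∈ Finset.univ.erase i, (m' j : ℕ) = ∑ j ∈ Finset.univ.erase i, (μ j : ℕ) := by
      apply Finset.sum_congr rfl
      intro j hj
      change ((Function.update μ i ⟨(μ i : ℕ) - 1, hlt⟩ j : Fin (d + 1)) : ℕ) = _
      rw [Function.update_of_ne (Finset.ne_of_mem_erase hj)]
    rw [h2, hm'i]
    omega

/-- the vertices of the tree except for the root -/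
abbrev Nz (m d : ℕ) : Type := {μ : Mo m d // μ ≠ 0}

/-- the edge to the parent -/
noncomputable def ed (i : Nz m d) : Ed m d := (exists_ed i.1 i.2).choose

lemma up_ed (i : Nz m d) : up (ed i) = i.1 := (exists_ed i.1 i.2).choose_spec.1

lemma dg_ed (i : Nz m d) : dg (ed i).1.1 + 1 = dg i.1 := (exists_ed i.1 i.2).choose_spec.2

lemma mono_ed {C : Type} [CommRing C] (z : Fin m → C) (i : Nz m d) :
    mono z i.1 = z (ed i).1.2 * mono z (ed i).1.1 := by
  have h := mono_up z (ed i)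
  rw [up_ed] at h
  exact h

/-- the equation along an edge -/
noncomputable def eqv (R : Type) [CommRing R] (i : Nz m d) :
    MvPolynomial (Mo m d ⊕ Fin (m + 1)) R :=
  X (Sum.inr 0) * X (Sum.inl i.1) - X (Sum.inr (ed i).1.2.succ) * X (Sum.inl (ed i).1.1)

lemma aeval_eqv {R : Type} [CommRing R] {C : Type} [CommRing C] [Algebra R C] (i : Nz m d)
    (v : Mo m d ⊕ Fin (m + 1) → C) : aeval v (eqv R i) = v (Sum.inr 0) * v (Sum.inl i.1) -
    v (Sum.inr (ed i).1.2.succ) * v (Sum.inl (ed i).1.1) := by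
  simp only [eqv, map_sub, map_mul, aeval_X]

/-- solutions of the equations -/
lemma tree_sol {C : Type} [CommRing C] (z : Fin m → C) (u : Mo m d → C)
    (h : ∀ i : Nz m d, u i.1 = z (ed i).1.2 * u (ed i).1.1) : ∀ μ, u μ = mono z μ * u 0 := by
  have key : ∀ (s : ℕ) (μ : Mo m d), dg μ = s → u μ = mono z μ * u 0 := by
    intro s
    induction s with
    | zero =>
      intro μ hμ
      have h1 : μ = 0 := by
        funext i
        exact Fin.ext (Finset.sum_eq_zero_iff.mp hμ i (Finset.mem_univ i))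
      rw [h1, mono]
      simp
    | succ s ih =>
      intro μ hμ
      have h1 : μ ≠ 0 := by
        rintro rfl
        simp [dg] at hμ
      have h2 : dg (ed ⟨μ, h1⟩).1.1 + 1 = dg μ := dg_ed ⟨μ, h1⟩
      rw [h ⟨μ, h1⟩, mono_ed z ⟨μ, h1⟩, ih _ (by omega)]
      ring
  exact fun μ => key _ μ rfl

/-- solutions with prescribed values -/
lemma tree_ext {C : Type} [CommRing C] (c : Nz m d → C) (T : Finset (Nz m d)) (w0 : Mo m d → C) :
    ∃ w : Mo m d → C, (∀ μ, (∀ h : μ ≠ 0, (⟨μ, h⟩ : Nz m d) ∉ T) → w μ = w0 μ) ∧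
      ∀ i ∈ T, w i.1 = c i * w (ed i).1.1 := by
  classical
  have key : ∀ s : ℕ, ∃ w : Mo m d → C, (∀ μ, (∀ h : μ ≠ 0, (⟨μ, h⟩ : Nz m d) ∉ T) → w μ = w0 μ) ∧
      ∀ i ∈ T, dg i.1 ≤ s → w i.1 = c i * w (ed i).1.1 := by
    intro s
    induction s with
    | zero =>
      refine ⟨w0, fun _ _ => rfl, fun i _ hi => ?_⟩
      have h1 := dg_ed i
      omega
    | succ s ih =>
      obtain ⟨w, hw1, hw2⟩ := ih
      let w' : Mo m d → C := fun μ => if h : (∃ h : μ ≠ 0, (⟨μ, h⟩ : Nz m d) ∈ T) ∧ dg μ = s + 1 then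
        c ⟨μ, h.1.1⟩ * w (ed ⟨μ, h.1.1⟩).1.1 else w μ
      have h3 : ∀ μ, dg μ ≤ s → w' μ = w μ := fun μ hμ => dif_neg fun h => by omega
      refine ⟨w', fun μ hμ => ?_, fun i hi hs => ?_⟩
      · have h4 : w' μ = w μ := dif_neg fun h => hμ h.1.1 h.1.2
        rw [h4, hw1 μ hμ]
      · have h5 := dg_ed i
        rw [h3 (ed i).1.1 (by omega)]
        by_cases h6 : dg i.1 = s + 1
        · exact dif_pos ⟨⟨i.2, hi⟩, h6⟩
        · rw [h3 i.1 (by omega)]
          exact hw2 i hi (by omega)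
  obtain ⟨w, h1, h2⟩ := key (Finset.univ.sup dg)
  exact ⟨w, h1, fun i hi => h2 i hi (Finset.le_sup (Finset.mem_univ _))⟩

/-- uniqueness of the solutions with prescribed values -/
lemma tree_uniq {C : Type} [CommRing C] (y0 : C) (hy : IsUnit y0) (c : Nz m d → C)
    (T : Finset (Nz m d)) (w w' : Mo m d → C)
    (h : ∀ μ, (∀ h : μ ≠ 0, (⟨μ, h⟩ : Nz m d) ∉ T) → w μ = w' μ)
    (h1 : ∀ i ∈ T, y0 * w i.1 = c i * w (ed i).1.1) (h2 : ∀ i ∈ T, y0 * w' i.1 = c i * w' (ed i).1.1) :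
    w = w' := by
  have key : ∀ (s : ℕ) (μ : Mo m d), dg μ ≤ s → w μ = w' μ := by
    intro s
    induction s with
    | zero =>
      intro μ hμ
      refine h μ fun h3 _ => ?_
      have h4 : dg (ed ⟨μ, h3⟩).1.1 + 1 = dg μ := dg_ed ⟨μ, h3⟩
      omega
    | succ s ih =>
      intro μ hμ
      by_cases h3 : ∃ h : μ ≠ 0, (⟨μ, h⟩ : Nz m d) ∈ T
      · obtain ⟨h4, h5⟩ := h3
        have h6 : dg (ed ⟨μ, h4⟩).1.1 + 1 = dg μ := dg_ed ⟨μ, h4⟩
        refine hy.mul_left_cancel ?_
        have e1 : y0 * w μ = c ⟨μ, h4⟩ * w (ed ⟨μ, h4⟩).1.1 := h1 _ h5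
        have e2 : y0 * w' μ = c ⟨μ, h4⟩ * w' (ed ⟨μ, h4⟩).1.1 := h2 _ h5
        have e3 := ih (ed ⟨μ, h4⟩).1.1 (by omega)
        rw [e1, e2, e3]
      · push Not at h3
        exact h μ h3
  exact funext fun μ => key _ μ le_rfl

end tree

section

variable {R : Type} [CommRing R] {P : Sch R → Prop} {sep : Prop} (hP : Bnd sep P) {m d : ℕ}

include hP

/-- the equations along a part of the tree -/
lemma pr_tree (T : Finset (Nz m d)) :
    Pr P (fun C _ _ v => ∀ i ∈ T, aeval v (eqv R i) = 0 : Cond R (Mo m d ⊕ Fin (m + 1))) := by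
  classical
  have hr : Rp (fun C _ _ v => ∀ i ∈ T, aeval v (eqv R i) = 0 : Cond R (Mo m d ⊕ Fin (m + 1))) :=
    ((rp_true R _).cls fun i : T => eqv R i.1).congr fun C _ _ v => by
      rw [true_and]
      exact ⟨fun h i hi => h ⟨i, hi⟩, fun h i => h i.1 i.2⟩
  refine Pr.split hP (X (Sum.inr 0)) hr ?_ ?_
  · refine (pr_prods hP (T.image fun i => ({Sum.inr (ed i).1.2.succ, Sum.inl (ed i).1.1} :
      Finset (Mo m d ⊕ Fin (m + 1)))) {Sum.inr 0}).congr ?_
    intro C _ _ v
    rw [Finset.prod_singleton, aeval_X]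
    refine and_congr_left fun h0 => ?_
    rw [Finset.forall_mem_image]
    refine forall_congr' fun i => forall_congr' fun _ => ?_
    rw [Finset.prod_pair Sum.inr_ne_inl, aeval_eqv, h0, zero_mul, zero_sub, neg_eq_zero]
  · refine ((pr_units hP ({Sum.inr 0} : Finset ({μ : Mo m d // ∀ h : μ ≠ 0,
      (⟨μ, h⟩ : Nz m d) ∉ T} ⊕ Fin (m + 1)))).pull hP (hr.op _)
      (Sum.elim (fun μ => X (Sum.inl μ.1)) fun j => X (Sum.inr j))) ?_ ?_ ?_
    · intro C _ _ v hv
      have h1 := hv.2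
      rw [aeval_X] at h1
      intro s hs
      rw [Finset.mem_singleton] at hs
      rw [hs]
      dsimp only
      rw [Sum.elim_inr, aeval_X]
      exact h1
    · intro C _ _ v w hv hw h
      have h1 := hv.2
      rw [aeval_X] at h1
      have h2 : ∀ j, v (Sum.inr j) = w (Sum.inr j) := by
        intro j
        simpa only [Sum.elim_inr, aeval_X] using h (Sum.inr j)
      have h3 := tree_uniq (v (Sum.inr 0)) h1 (fun i => v (Sum.inr (ed i).1.2.succ)) T
        (fun μ => v (Sum.inl μ)) (fun μ => w (Sum.inl μ)) (fun μ hμ => by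
          simpa only [Sum.elim_inl, aeval_X] using h (Sum.inl ⟨μ, hμ⟩))
        (fun i hi => by
          have h4 := hv.1 i hi
          rw [aeval_eqv, sub_eq_zero] at h4
          exact h4)
        (fun i hi => by
          have h4 := hw.1 i hi
          rw [aeval_eqv, sub_eq_zero] at h4
          simp only [h2]
          exact h4)
      funext s
      rcases s with μ | j
      · exact congrFun h3 μ
      · exact h2 j
    · intro C _ _ v hv
      obtain ⟨y, hy⟩ := (hv _ (Finset.mem_singleton_self _)).exists_right_inv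
      obtain ⟨w, hw1, hw2⟩ := tree_ext (fun i => v (Sum.inr (ed i).1.2.succ) * y) T
        (fun μ => if h : ∀ h : μ ≠ 0, (⟨μ, h⟩ : Nz m d) ∉ T then v (Sum.inl ⟨μ, h⟩) else 0)
      refine ⟨Sum.elim w fun j => v (Sum.inr j), ⟨fun i hi => ?_, ?_⟩, ?_⟩
      · rw [aeval_eqv]
        simp only [Sum.elim_inl, Sum.elim_inr]
        rw [hw2 i hi]
        linear_combination v (Sum.inr (ed i).1.2.succ) * w (ed i).1.1 * hy
      · rw [aeval_X]
        exact hv _ (Finset.mem_singleton_self _)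
      · rintro (μ | j)
        · rw [Sum.elim_inl, aeval_X, Sum.elim_inl, hw1 _ μ.2]
          exact dif_pos μ.2
        · simp only [Sum.elim_inr, aeval_X]

end

end Pool.Agent.L5helper70.OD
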